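import Pool.Agent.helper31.P2.BFIc

set_option autoImplicit false

open scoped ContDiff Topology ComplexConjugate ENNReal
open MeasureTheory Filter Set Metric

namespace Pool.Agent.P2B

open Pool.Agent.P2 Pool.Agent.P2I

theorem BFI_V (Ω : Set E3) (G : E3 → ℝ) (F : ℂ × ℂ → E3) (E C0 α : ℝ) (hCD : CD Ω G C0 α) (hFD : FD Ω F E) :
    ContDiffOn ℝ ∞ (fun x => G (F (x, 0))) (ball 0 1) ∧
    (∀ x ∈ ball (0 : ℂ) 1, 0 ≤ lap (fun x => G (F (x, 0))) x) ∧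
    ∀ x ∈ ball (0 : ℂ) 1, |G (F (x, 0)) - Up (sl (fun p => F p 0) 0) (sl (fun p => F p 1) 0) x| ≤ C0 := by
  have h0 : (0 : ℂ) ∈ ball (0 : ℂ) 1 := mem_ball_self one_pos
  have hBI : IsOpen BI := isOpen_ball.prod isOpen_ball
  have hd : DifferentiableOn ℂ (fun x : ℂ => F (x, 0)) (ball 0 1) := by
    intro x hx
    have h1 : DifferentiableAt ℂ F (x, 0) := hFD.df.differentiableAt (hBI.mem_nhds ⟨hx, h0⟩)
    exact (h1.comp x (differentiableAt_id.prodMk (differentiableAt_const _))).differentiableWithinAt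
  have hG : ∀ x ∈ ball (0 : ℂ) 1, ContDiffAt ℝ ∞ G (F (x, 0)) := fun x hx =>
    hCD.sm.contDiffAt (hCD.op.mem_nhds (hFD.mem _ ⟨hx, h0⟩))
  refine ⟨?_, ?_, ?_⟩
  · intro x hx
    have h1 : AnalyticAt ℂ (fun x : ℂ => F (x, 0)) x := hd.analyticAt (isOpen_ball.mem_nhds hx)
    have h2 : ContDiffAt ℝ ∞ (fun x : ℂ => F (x, 0)) x := (h1.contDiffAt (n := ∞)).restrict_scalars ℝ
    exact ((hG x hx).comp x h2).contDiffWithinAt
  · intro x hx
    rw [CHN.2.1 (ball 0 1) (fun x : ℂ => F (x, 0)) G x isOpen_ball hd hx ((hG x hx).of_le BFI_two)]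
    exact hCD.ps _ (hFD.mem _ ⟨hx, h0⟩) _
  · intro x hx
    exact hCD.bd _ (hFD.mem _ ⟨hx, h0⟩)

theorem BFI_Vint (V : ℂ → ℝ) (hV : ContDiffOn ℝ ∞ V (ball 0 1)) : IntegrableOn (lap V) (ball (0 : ℂ) (1 / 2)) := by
  have hcl : closedBall (0 : ℂ) (1 / 2) ⊆ ball 0 1 := closedBall_subset_ball (by norm_num)
  have h1 : ContinuousOn (lap V) (closedBall (0 : ℂ) (1 / 2)) := by
    intro t ht
    exact (BFI_lapcont _ t (hV.contDiffAt (isOpen_ball.mem_nhds (hcl ht)))).continuousWithinAt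
  exact (h1.integrableOn_compact (isCompact_closedBall _ _)).mono_set ball_subset_closedBall

theorem BFI_Ydiff (κ r : ℝ) (hr : 0 < r) (Y : ℂ × ℂ → ℂ) (hY : DifferentiableOn ℂ Y (ball (0 : ℂ) κ ×ˢ ball (0 : ℂ) r)) :
    DifferentiableOn ℂ (fun t => Y (t, 0)) (ball 0 κ) := by
  intro t ht
  have h1 : DifferentiableAt ℂ Y (t, 0) :=
    hY.differentiableAt ((isOpen_ball.prod isOpen_ball).mem_nhds ⟨ht, mem_ball_self hr⟩)
  exact (h1.comp t (differentiableAt_id.prodMk (differentiableAt_const _))).differentiableWithinAt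

/-- own mass of a band -/
theorem BFI_mass (hBUQ : BUQ_stmt) (P Q : ℂ × ℂ → ℂ) (E κ r : ℝ) (y : ℂ) (Y : ℂ × ℂ → ℂ) (hND : ND P Q E)
    (hy : y ∈ ball (0 : ℂ) 1) (hκ : 0 < κ) (hκ1 : κ ≤ 1 / 8) (hr : 0 < r) (hr1 : r ≤ 1) (hBand : Band P Q (ball 0 1) (κ / 2) r y Y) :
    ENNReal.ofReal (κ ^ 2 / 2) ≤ ∫⁻ x in (fun t => Y (t, 0)) '' ball 0 (κ / 2), ENNReal.ofReal (sph (sl P 0) (sl Q 0) x) := by
  obtain ⟨hQ1, hQ2, -⟩ := hBUQ P Q E hND y hy (κ / 2) r Y (by linarith) hr hr1 hBand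
  have h0r : (0 : ℂ) ∈ ball (0 : ℂ) r := mem_ball_self hr
  rw [BFI_cov1 (fun t => Y (t, 0)) (ball 0 (κ / 2)) isOpen_ball (BFI_Ydiff (κ / 2) r hr Y hBand.1) (hQ2 0 h0r).1]
  calc ENNReal.ofReal (κ ^ 2 / 2) ≤ ENNReal.ofReal (9 / 10) * volume (ball (0 : ℂ) (κ / 2)) := by
        rw [Complex.volume_ball]
        have h1 : ENNReal.ofReal (κ / 2) ^ 2 * (NNReal.pi : ℝ≥0∞) = ENNReal.ofReal ((κ / 2) ^ 2 * Real.pi) := by
          rw [ENNReal.ofReal_mul (by positivity), ENNReal.ofReal_pow (by positivity)]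
          congr 1
          exact (ENNReal.ofReal_coe_nnreal (p := NNReal.pi)).symm
        rw [h1, ← ENNReal.ofReal_mul (by norm_num)]
        apply ENNReal.ofReal_le_ofReal
        nlinarith [Real.pi_gt_three, mul_pos hκ hκ]
    _ = ∫⁻ w in ball (0 : ℂ) (κ / 2), ENNReal.ofReal (9 / 10) := by
        rw [setLIntegral_const]
    _ ≤ _ := by
        refine setLIntegral_mono_ae' measurableSet_ball (Eventually.of_forall ?_)
        intro w hw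
        rw [← ENNReal.ofReal_mul (Complex.normSq_nonneg _)]
        apply ENNReal.ofReal_le_ofReal
        have h1 := (hQ1 w hw 0 h0r).2.2
        have hw' : ‖w‖ < κ / 2 := by rwa [mem_ball_zero_iff] at hw
        have h2 : Complex.normSq w ≤ 1 / 256 := by
          rw [Complex.normSq_eq_norm_sq]
          nlinarith [norm_nonneg w]
        have h3 := Complex.normSq_nonneg w
        have h4 : (1 + Complex.normSq w) ^ 2 ≤ 10 / 9 := by nlinarith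
        have h5 : 0 ≤ Complex.normSq (deriv (fun t => Y (t, 0)) w) * sph (sl P 0) (sl Q 0) (Y (w, 0)) :=
          mul_nonneg (Complex.normSq_nonneg _) (div_nonneg (Complex.normSq_nonneg _) (sq_nonneg _))
        nlinarith

/-- finer mass of the core of a band -/
theorem BFI_core (hBUQ : BUQ_stmt) (CI : ℝ)
    (hISA : ∀ (P Q : ℂ → ℂ) (V : ℂ → ℝ) (B r : ℝ) (z : ℂ) (X : ℂ → ℂ), Adm P Q → ContDiffOn ℝ ∞ V (ball 0 1) →
    (∀ z ∈ ball (0 : ℂ) 1, 0 ≤ lap V z) → 0 ≤ B → (∀ z ∈ ball (0 : ℂ) 1, |V z - Up P Q z| ≤ B) → z ∈ ball (0 : ℂ) 1 → 0 < r → r ≤ 1 →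
    Br P Q (ball 0 1) z r X → (∫ z in X '' ball 0 (r / 2), lap V z) ≤ CI * (1 + B))
    (hBSL : BSL_stmt) (P Q : ℂ × ℂ → ℂ) (E κ r C0 : ℝ) (y : ℂ) (Y : ℂ × ℂ → ℂ) (V : ℂ → ℝ) (hND : ND P Q E)
    (hV : ContDiffOn ℝ ∞ V (ball 0 1)) (hVl : ∀ z ∈ ball (0 : ℂ) 1, 0 ≤ lap V z) (hC0 : 0 ≤ C0)
    (hVU : ∀ z ∈ ball (0 : ℂ) 1, |V z - Up (sl P 0) (sl Q 0) z| ≤ C0)
    (hy : y ∈ ball (0 : ℂ) 1) (hκ : 0 < κ) (hκ1 : κ ≤ 1 / 8) (hr : 0 < r) (hr1 : r ≤ 1) (hBand : Band P Q (ball 0 (1 / 2)) (κ / 2) r y Y) :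
    ∫⁻ x in (fun t => Y (t, 0)) '' ball 0 (κ / 32), ENNReal.ofReal (lap V x) ≤ ENNReal.ofReal (CI * (1 + C0)) := by
  have hh : ball (0 : ℂ) (1 / 2) ⊆ ball 0 1 := ball_subset_ball (by norm_num)
  have hBand1 : Band P Q (ball 0 1) (κ / 2) r y Y := by
    refine ⟨hBand.1, hBand.2.1, fun t ht v hv => ?_⟩
    obtain ⟨h1, h2⟩ := hBand.2.2 t ht v hv
    exact ⟨hh h1, h2⟩
  obtain ⟨hQ1, hQ2, -⟩ := hBUQ P Q E hND y hy (κ / 2) r Y (by linarith) hr hr1 hBand1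
  have h0r : (0 : ℂ) ∈ ball (0 : ℂ) r := mem_ball_self hr
  obtain ⟨hinj, l, hl, hBr⟩ := hQ2 0 h0r
  have hl0 : l ≠ 0 := by
    intro h
    rw [h, norm_zero] at hl
    exact zero_ne_one hl
  rw [hBand.2.1] at hBr
  have hA := (hBSL P Q E hND 0 (mem_ball_self one_pos)).1
  have h1 := hISA (sl P 0) (sl Q 0) V C0 (κ / 2) y (fun t => Y (l * t, 0)) hA hV hVl hC0 hVU hy (by linarith) (by linarith) hBr
  have himg : (fun t => Y (l * t, 0)) '' ball 0 (κ / 2 / 2) = (fun t => Y (t, 0)) '' ball 0 (κ / 2 / 2) := by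
    ext w
    constructor
    · rintro ⟨t, ht, rfl⟩
      refine ⟨l * t, ?_, rfl⟩
      rw [mem_ball_zero_iff] at ht ⊢
      rwa [norm_mul, hl, one_mul]
    · rintro ⟨t, ht, rfl⟩
      refine ⟨l⁻¹ * t, ?_, ?_⟩
      · rw [mem_ball_zero_iff] at ht ⊢
        rwa [norm_mul, norm_inv, hl, inv_one, one_mul]
      · simp only
        rw [mul_inv_cancel_left₀ hl0]
  rw [himg] at h1
  have hsub2 : ball (0 : ℂ) (κ / 2 / 2) ⊆ ball 0 (κ / 2) := ball_subset_ball (by linarith)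
  have hms : MeasurableSet ((fun t => Y (t, 0)) '' ball 0 (κ / 2 / 2)) :=
    BFI_meas1 _ _ isOpen_ball ((BFI_Ydiff (κ / 2) r hr Y hBand.1).mono hsub2) (hinj.mono hsub2)
  have hss : (fun t => Y (t, 0)) '' ball 0 (κ / 2 / 2) ⊆ ball (0 : ℂ) (1 / 2) := by
    rintro _ ⟨t, ht, rfl⟩
    exact (hBand.2.2 t (hsub2 ht) 0 h0r).1
  calc ∫⁻ x in (fun t => Y (t, 0)) '' ball 0 (κ / 32), ENNReal.ofReal (lap V x) ≤
        ∫⁻ x in (fun t => Y (t, 0)) '' ball 0 (κ / 2 / 2), ENNReal.ofReal (lap V x) :=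
        lintegral_mono_set (image_mono (ball_subset_ball (by linarith)))
    _ = ENNReal.ofReal (∫ x in (fun t => Y (t, 0)) '' ball 0 (κ / 2 / 2), lap V x) := by
        rw [ofReal_integral_eq_lintegral_ofReal ((BFI_Vint V hV).mono_set hss)]
        exact (ae_restrict_iff' hms).2 (Eventually.of_forall fun x hx => hVl x (hh (hss hx)))
    _ ≤ _ := ENNReal.ofReal_le_ofReal h1

theorem BFI (hCH1 : CH1_stmt) (hIB1 : IB1_stmt) (hISA : ISA_stmt) (hBSL : BSL_stmt) (hBUQ : BUQ_stmt) (hBBS : BBS_stmt) (hBZB : BZB_stmt) (hBZD : BZD_stmt) (hBT1 : BT1_stmt) (hBIC : BIC_stmt) : BFI_stmt := by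
  intro C0 α κ r σ ε hC0 hα0 hα1 hκ hκ1 hr hr1 hσ hε
  obtain ⟨q, hq⟩ := hBIC κ hκ hκ1
  obtain ⟨CB, hCB, hsph⟩ := BFI_sph hCH1 hIB1
  obtain ⟨CI, hCI, hisa⟩ := hISA
  have hq0 : (0 : ℝ) ≤ q := Nat.cast_nonneg q
  obtain ⟨δ, hδd⟩ : ∃ δ : ℝ, δ = ε * κ ^ 2 / (4 * (q + 1) * CB) := ⟨_, rfl⟩
  have hδ : 0 < δ := by
    rw [hδd]
    positivity
  obtain ⟨η₁, hη₁, hclaim⟩ := BFI_claim hCH1 hBUQ hBZB hBZD hBT1 C0 α κ δ (σ / 4) hC0 hα0 hα1 hκ hκ1 hδ (by linarith)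
  have hC0' : 0 < 1 + C0 := by linarith
  refine ⟨ε * η₁ / (2 * (q + 1) * (CI * (1 + C0))), by positivity, ?_⟩
  intro Ω G F E hCD hFD harea
  have hE := hFD.nd.hE
  obtain ⟨hVs, hVl, hVU⟩ := BFI_V Ω G F E C0 α hCD hFD
  obtain ⟨V, hVd⟩ : ∃ V : ℂ → ℝ, V = fun x => G (F (x, 0)) := ⟨_, rfl⟩
  rw [← hVd] at hVs hVl
  have hh : ball (0 : ℂ) (1 / 2) ⊆ ball 0 1 := ball_subset_ball (by norm_num)
  have h0r : (0 : ℂ) ∈ ball (0 : ℂ) r := mem_ball_self hr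
  obtain ⟨T, Yb, hT1, hT2, hT3⟩ := hq (fun p => F p 0) (fun p => F p 1) E r
    {x | x ∈ ball (0 : ℂ) (1 / 6) ∧ ∃ Y : ℂ × ℂ → ℂ, Band (fun p => F p 0) (fun p => F p 1) (ball 0 1 ∩ ball x (1 / 3)) κ r x Y}
    hFD.nd hr hr1 (fun x hx => hx.1) (fun x hx => hx.2)
  have hBd1 : ∀ j, ∀ y ∈ T j, Band (fun p => F p 0) (fun p => F p 1) (ball 0 1) (κ / 2) r y (Yb y) := by
    intro j y hy
    have hb := ((hT1 j).2 y hy).2
    refine ⟨hb.1, hb.2.1, fun t ht v hv => ?_⟩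
    obtain ⟨h1, h2⟩ := hb.2.2 t ht v hv
    exact ⟨hh h1, h2⟩
  have hO : IsOpen (ball (0 : ℂ) (κ / 2) ×ˢ ball (0 : ℂ) r) := isOpen_ball.prod isOpen_ball
  -- the sets
  obtain ⟨J, hJ⟩ : ∃ J : ℂ → Set ℂ, J = fun y => (fun t => Yb y (t, 0)) '' ball 0 (κ / 32) := ⟨_, rfl⟩
  obtain ⟨D', hD'⟩ : ∃ D' : ℂ → Set ℂ, D' = fun y => (fun t => Yb y (t, 0)) '' ball 0 (κ / 8) := ⟨_, rfl⟩
  obtain ⟨D, hD⟩ : ∃ D : ℂ → Set ℂ, D = fun y => (fun t => Yb y (t, 0)) '' ball 0 (κ / 2) := ⟨_, rfl⟩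
  obtain ⟨Ψ, hΨ⟩ : ∃ Ψ : ℂ → Set (ℂ × ℂ), Ψ = fun y => (fun p : ℂ × ℂ => (Yb y p, p.2)) '' (ball (0 : ℂ) (κ / 2) ×ˢ ball (0 : ℂ) r) := ⟨_, rfl⟩
  obtain ⟨good, hgood⟩ : ∃ good : ℂ → Prop, good = fun y => ENNReal.ofReal δ ≤ ∫⁻ x in D' y, ENNReal.ofReal (lap V x) ∧
    ∫⁻ p in Ψ y, ENNReal.ofReal (ard G F p) ≤ ENNReal.ofReal η₁ := ⟨_, rfl⟩
  obtain ⟨S, hS⟩ : ∃ S : Fin q → Set ℂ, S = fun j => {y | y ∈ T j ∧ ¬ good y} := ⟨_, rfl⟩
  have hScount : ∀ j, Countable (S j) := by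
    intro j
    have : (S j).Countable := by
      rw [hS]
      exact (hT1 j).1.mono (fun y hy => hy.1)
    exact this.to_subtype
  have hSi : ∀ j, ∀ y : ℂ, y ∈ S j ↔ y ∈ T j ∧ ¬ good y := by
    intro j y
    rw [hS]
    exact Iff.rfl
  have hST : ∀ j, ∀ y : S j, (y : ℂ) ∈ T j ∧ ¬ good y := fun j y => (hSi j y).1 y.2
  -- measurability, inclusions
  have hQ2 : ∀ j, ∀ y ∈ T j, ∀ v ∈ ball (0 : ℂ) r, InjOn (fun t => Yb y (t, v)) (ball 0 (κ / 2)) := by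
    intro j y hy v hv
    exact ((hBUQ _ _ E hFD.nd y (hh ((hT1 j).2 y hy).1) (κ / 2) r (Yb y) (by linarith) hr hr1 (hBd1 j y hy)).2.1 v hv).1
  have hJm : ∀ j, ∀ y ∈ T j, MeasurableSet (J y) := by
    intro j y hy
    have hsub2 : ball (0 : ℂ) (κ / 32) ⊆ ball 0 (κ / 2) := ball_subset_ball (by linarith)
    rw [hJ]
    exact BFI_meas1 _ _ isOpen_ball ((BFI_Ydiff (κ / 2) r hr (Yb y) (hBd1 j y hy).1).mono hsub2) ((hQ2 j y hy 0 h0r).mono hsub2)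
  have hDm : ∀ j, ∀ y ∈ T j, MeasurableSet (D y) := by
    intro j y hy
    rw [hD]
    exact BFI_meas1 _ _ isOpen_ball (BFI_Ydiff (κ / 2) r hr (Yb y) (hBd1 j y hy).1) (hQ2 j y hy 0 h0r)
  have hΨm : ∀ j, ∀ y ∈ T j, MeasurableSet (Ψ y) := by
    intro j y hy
    rw [hΨ]
    exact BFI_meas2 _ _ hO (hBd1 j y hy).1 (BFI_injpsi _ _ _ (hQ2 j y hy))
  have hJs : ∀ j, ∀ y ∈ T j, J y ⊆ ball (0 : ℂ) (1 / 2) := by
    intro j y hy
    rw [hJ]
    rintro _ ⟨t, ht, rfl⟩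
    exact (((hT1 j).2 y hy).2.2.2 t (ball_subset_ball (by linarith) ht) 0 h0r).1
  have hDs : ∀ j, ∀ y ∈ T j, D y ⊆ ball (0 : ℂ) (1 / 2) := by
    intro j y hy
    rw [hD]
    rintro _ ⟨t, ht, rfl⟩
    exact (((hT1 j).2 y hy).2.2.2 t ht 0 h0r).1
  have hΨs : ∀ j, ∀ y ∈ T j, Ψ y ⊆ ball (0 : ℂ) (1 / 2) ×ˢ ball (0 : ℂ) r := by
    intro j y hy
    rw [hΨ]
    rintro _ ⟨p, hp, rfl⟩
    exact ⟨(((hT1 j).2 y hy).2.2.2 p.1 hp.1 p.2 hp.2).1, hp.2⟩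
  have hDd : ∀ j, ∀ y ∈ T j, ∀ y' ∈ T j, y ≠ y' → Disjoint (D y) (D y') := by
    intro j y hy y' hy' hne
    rw [Set.disjoint_left, hD]
    rintro _ ⟨t, ht, rfl⟩ ⟨t', ht', he⟩
    exact hT2 j y hy y' hy' hne t ht t' ht' 0 h0r he.symm
  have hΨd : ∀ j, ∀ y ∈ T j, ∀ y' ∈ T j, y ≠ y' → Disjoint (Ψ y) (Ψ y') := by
    intro j y hy y' hy' hne
    rw [Set.disjoint_left, hΨ]
    rintro _ ⟨p, hp, rfl⟩ ⟨p', hp', he⟩
    simp only [Prod.mk.injEq] at he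
    obtain ⟨t, v⟩ := p
    obtain ⟨t', v'⟩ := p'
    obtain ⟨e1, e2⟩ := he
    simp only at e2
    subst e2
    exact hT2 j y hy y' hy' hne t hp.1 t' hp'.1 v' hp.2 e1.symm
  -- the bound for one bad point
  have hone : ∀ j, ∀ y : S j, ∫⁻ x in J y, ENNReal.ofReal (lap V x) ≤
      ENNReal.ofReal (2 * δ / κ ^ 2) * (∫⁻ x in D y, ENNReal.ofReal (sph (sl (fun p => F p 0) 0) (sl (fun p => F p 1) 0) x)) +
      ENNReal.ofReal (CI * (1 + C0) / η₁) * ∫⁻ p in Ψ y, ENNReal.ofReal (ard G F p) := by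
    intro j y
    obtain ⟨hy, hng⟩ := hST j y
    rw [hgood, not_and_or, not_le, not_le] at hng
    rcases hng with hng | hng
    · have h1 : ∫⁻ x in J y, ENNReal.ofReal (lap V x) ≤ ∫⁻ x in D' y, ENNReal.ofReal (lap V x) := by
        rw [hJ, hD']
        exact lintegral_mono_set (image_mono (ball_subset_ball (by linarith)))
      have h2 := BFI_mass hBUQ _ _ E κ r y (Yb y) hFD.nd (hh ((hT1 j).2 y hy).1) hκ hκ1 hr hr1 (hBd1 j y hy)
      calc ∫⁻ x in J y, ENNReal.ofReal (lap V x) ≤ ENNReal.ofReal δ := h1.trans hng.le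
        _ = ENNReal.ofReal (2 * δ / κ ^ 2) * ENNReal.ofReal (κ ^ 2 / 2) := by
            rw [← ENNReal.ofReal_mul (by positivity)]
            congr 1
            field_simp
        _ ≤ ENNReal.ofReal (2 * δ / κ ^ 2) * (∫⁻ x in D y, ENNReal.ofReal (sph (sl (fun p => F p 0) 0) (sl (fun p => F p 1) 0) x)) := by
            apply mul_le_mul_right
            rw [hD]
            exact h2
        _ ≤ _ := le_self_add
    · have h2 := BFI_core hBUQ CI hisa hBSL _ _ E κ r C0 y (Yb y) V hFD.nd hVs hVl (by linarith)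
        (by rw [hVd]; exact hVU) (hh ((hT1 j).2 y hy).1) hκ hκ1 hr hr1 ((hT1 j).2 y hy).2
      calc ∫⁻ x in J y, ENNReal.ofReal (lap V x) ≤ ENNReal.ofReal (CI * (1 + C0)) := by
            rw [hJ]
            exact h2
        _ = ENNReal.ofReal (CI * (1 + C0) / η₁) * ENNReal.ofReal η₁ := by
            rw [← ENNReal.ofReal_mul (by positivity)]
            congr 1
            field_simp
        _ ≤ ENNReal.ofReal (CI * (1 + C0) / η₁) * ∫⁻ p in Ψ y, ENNReal.ofReal (ard G F p) :=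
            mul_le_mul_right hng.le _
        _ ≤ _ := le_add_self
  -- the sum over one family
  have hfam : ∀ j, ∫⁻ x in ⋃ y : S j, J y, ENNReal.ofReal (lap V x) ≤ ENNReal.ofReal (ε * E / (q + 1)) := by
    intro j
    have hc := hScount j
    calc ∫⁻ x in ⋃ y : S j, J y, ENNReal.ofReal (lap V x) ≤ ∑' y : S j, ∫⁻ x in J y, ENNReal.ofReal (lap V x) :=
          lintegral_iUnion_le _ _
      _ ≤ ∑' y : S j, (ENNReal.ofReal (2 * δ / κ ^ 2) * (∫⁻ x in D y, ENNReal.ofReal (sph (sl (fun p => F p 0) 0) (sl (fun p => F p 1) 0) x)) +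
            ENNReal.ofReal (CI * (1 + C0) / η₁) * ∫⁻ p in Ψ y, ENNReal.ofReal (ard G F p)) :=
          ENNReal.tsum_le_tsum (hone j)
      _ = ENNReal.ofReal (2 * δ / κ ^ 2) * (∑' y : S j, ∫⁻ x in D y, ENNReal.ofReal (sph (sl (fun p => F p 0) 0) (sl (fun p => F p 1) 0) x)) +
            ENNReal.ofReal (CI * (1 + C0) / η₁) * ∑' y : S j, ∫⁻ p in Ψ y, ENNReal.ofReal (ard G F p) := by
          rw [ENNReal.tsum_add, ENNReal.tsum_mul_left, ENNReal.tsum_mul_left]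
      _ ≤ ENNReal.ofReal (2 * δ / κ ^ 2) * ENNReal.ofReal (CB * E) +
            ENNReal.ofReal (CI * (1 + C0) / η₁) * ENNReal.ofReal (ε * η₁ / (2 * (q + 1) * (CI * (1 + C0))) * E) := by
          have h1 : ∑' y : S j, ∫⁻ x in D y, ENNReal.ofReal (sph (sl (fun p => F p 0) 0) (sl (fun p => F p 1) 0) x) ≤
              ENNReal.ofReal (CB * E) := by
            rw [← lintegral_iUnion (fun y : S j => hDm j y (hST j y).1) (fun y y' hne =>
              hDd j y (hST j y).1 y' (hST j y').1 (fun h => hne (Subtype.ext h)))]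
            obtain ⟨hA, hU, -⟩ := hBSL _ _ E hFD.nd 0 (mem_ball_self one_pos)
            exact (lintegral_mono_set (iUnion_subset fun y : S j => hDs j y (hST j y).1)).trans (hsph _ _ E hA hE hU)
          have h2 : ∑' y : S j, ∫⁻ p in Ψ y, ENNReal.ofReal (ard G F p) ≤
              ENNReal.ofReal (ε * η₁ / (2 * (q + 1) * (CI * (1 + C0))) * E) := by
            rw [← lintegral_iUnion (fun y : S j => hΨm j y (hST j y).1) (fun y y' hne =>
              hΨd j y (hST j y).1 y' (hST j y').1 (fun h => hne (Subtype.ext h)))]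
            exact (lintegral_mono_set (iUnion_subset fun y : S j => hΨs j y (hST j y).1)).trans harea
          exact add_le_add (mul_le_mul_right h1 _) (mul_le_mul_right h2 _)
      _ = ENNReal.ofReal (ε * E / (q + 1)) := by
          rw [← ENNReal.ofReal_mul (by positivity), ← ENNReal.ofReal_mul (by positivity), ← ENNReal.ofReal_add (by positivity) (by positivity)]
          congr 1
          rw [hδd]
          field_simp
          ring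
  have hBdl : ∫⁻ x in ⋃ j, ⋃ y : S j, J y, ENNReal.ofReal (lap V x) ≤ ENNReal.ofReal (ε * E) := by
    calc ∫⁻ x in ⋃ j, ⋃ y : S j, J y, ENNReal.ofReal (lap V x) ≤
          ∑' j, ∫⁻ x in ⋃ y : S j, J y, ENNReal.ofReal (lap V x) := lintegral_iUnion_le _ _
      _ = ∑ j, ∫⁻ x in ⋃ y : S j, J y, ENNReal.ofReal (lap V x) := tsum_fintype _
      _ ≤ ∑ j : Fin q, ENNReal.ofReal (ε * E / (q + 1)) := Finset.sum_le_sum fun j _ => hfam j
      _ = ENNReal.ofReal (q * (ε * E / (q + 1))) := by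
          rw [Finset.sum_const, Finset.card_univ, Fintype.card_fin, nsmul_eq_mul, ENNReal.ofReal_mul hq0, ENNReal.ofReal_natCast]
      _ ≤ ENNReal.ofReal (ε * E) := by
          apply ENNReal.ofReal_le_ofReal
          rw [mul_div_assoc', div_le_iff₀ (by linarith)]
          nlinarith [mul_pos hε (lt_of_lt_of_le one_pos hE)]
  have hBdm : MeasurableSet (⋃ j, ⋃ y : S j, J y) := by
    apply MeasurableSet.iUnion
    intro j
    have hc := hScount j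
    exact MeasurableSet.iUnion fun y => hJm j y (hST j y).1
  have hBds : (⋃ j, ⋃ y : S j, J y) ⊆ ball (0 : ℂ) (1 / 2) :=
    iUnion_subset fun j => iUnion_subset fun y => hJs j y (hST j y).1
  refine ⟨⋃ j, ⋃ y : S j, J y, hBdm, ?_, ?_⟩
  · intro x hx hxB hxN
    obtain ⟨j, y, hy, t, ht, hyx⟩ := hT3 x ⟨hx, hxN⟩
    have hg : good y := by
      by_contra hng
      apply hxB
      have hyS : y ∈ S j := (hSi j y).2 ⟨hy, hng⟩
      refine mem_iUnion.2 ⟨j, mem_iUnion.2 ⟨⟨y, hyS⟩, ?_⟩⟩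
      rw [hJ]
      exact ⟨t, ht, hyx⟩
    rw [hgood, hD', hΨ, hVd] at hg
    have h1 := hclaim Ω G F E r y (Yb y) hCD hFD (hh ((hT1 j).2 y hy).1) hr hr1 (hBd1 j y hy) hg.1 hg.2
    have h2 := BFI_thin hBUQ hBBS hBZB C0 α κ σ hC0 hα0 hα1 hκ hκ1 hσ Ω G F E r y (Yb y) hCD hFD
      (hh ((hT1 j).2 y hy).1) hr hr1 ((hT1 j).2 y hy).2 h1 t ht
    rw [hyx] at h2
    exact h2
  · have hnn : 0 ≤ᵐ[volume.restrict ((⋃ j, ⋃ y : S j, J y) ∩ ball 0 (1 / 6))] lap V := by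
      refine (ae_restrict_iff' (hBdm.inter measurableSet_ball)).2 (Eventually.of_forall fun x hx => ?_)
      exact hVl x (hh (hBds hx.1))
    have hint : IntegrableOn (lap V) ((⋃ j, ⋃ y : S j, J y) ∩ ball 0 (1 / 6)) :=
      (BFI_Vint V hVs).mono_set (inter_subset_left.trans hBds)
    have h1 := ofReal_integral_eq_lintegral_ofReal hint hnn
    have h2 : ENNReal.ofReal (∫ x in (⋃ j, ⋃ y : S j, J y) ∩ ball 0 (1 / 6), lap V x) ≤ ENNReal.ofReal (ε * E) := by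
      rw [h1]
      exact (lintegral_mono_set inter_subset_left).trans hBdl
    rw [← hVd]
    exact (ENNReal.ofReal_le_ofReal_iff (by positivity)).1 h2

end Pool.Agent.P2B
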