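import Pool.Agent.helper15.P2.SpecD
import Pool.Agent.helper43.P2.CHN

set_option autoImplicit false

open scoped ContDiff Topology ComplexConjugate ENNReal
open MeasureTheory Filter Set Metric

namespace Pool.Agent.P2B

open Pool.Agent.P2 Pool.Agent.P2I

/-! ### determinants and changes of variables -/

theorem BFI_det1 (A : ℂ →L[ℂ] ℂ) : (A.restrictScalars ℝ).det = Complex.normSq (A 1) := by
  have h1 : (A.restrictScalars ℝ).det = LinearMap.det ((A : ℂ →ₗ[ℂ] ℂ).restrictScalars ℝ) := rfl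
  rw [h1, LinearMap.det_restrictScalars, Algebra.norm_complex_apply, LinearMap.det_ring]
  rfl

theorem BFI_det2 (A : ℂ × ℂ →L[ℂ] ℂ × ℂ) : (A.restrictScalars ℝ).det =
    Complex.normSq ((A (1, 0)).1 * (A (0, 1)).2 - (A (0, 1)).1 * (A (1, 0)).2) := by
  have h1 : (A.restrictScalars ℝ).det = LinearMap.det ((A : ℂ × ℂ →ₗ[ℂ] ℂ × ℂ).restrictScalars ℝ) := rfl
  rw [h1, LinearMap.det_restrictScalars, Algebra.norm_complex_apply]
  congr 1
  rw [← LinearMap.det_toMatrix (Module.Basis.finTwoProd ℂ), Matrix.det_fin_two]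
  simp [LinearMap.toMatrix_apply]

/-- change of variables, one complex variable -/
theorem BFI_cov1 (X : ℂ → ℂ) (Ω : Set ℂ) (hΩ : IsOpen Ω) (hX : DifferentiableOn ℂ X Ω)
    (hinj : InjOn X Ω) (u : ℂ → ℝ≥0∞) :
    ∫⁻ z in X '' Ω, u z = ∫⁻ w in Ω, ENNReal.ofReal (Complex.normSq (deriv X w)) * u (X w) := by
  have hf : ∀ x ∈ Ω, HasFDerivWithinAt X ((fderiv ℂ X x).restrictScalars ℝ) Ω x := by
    intro x hx
    exact ((hX.differentiableAt (hΩ.mem_nhds hx)).hasFDerivAt.restrictScalars ℝ).hasFDerivWithinAt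
  rw [lintegral_image_eq_lintegral_abs_det_fderiv_mul volume hΩ.measurableSet hf hinj]
  refine setLIntegral_congr_fun hΩ.measurableSet fun w _ => ?_
  rw [BFI_det1, fderiv_apply_one_eq_deriv, abs_of_nonneg (Complex.normSq_nonneg _)]

theorem BFI_meas1 (X : ℂ → ℂ) (Ω : Set ℂ) (hΩ : IsOpen Ω) (hX : DifferentiableOn ℂ X Ω)
    (hinj : InjOn X Ω) : MeasurableSet (X '' Ω) := by
  have hf : ∀ x ∈ Ω, HasFDerivWithinAt X ((fderiv ℂ X x).restrictScalars ℝ) Ω x := by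
    intro x hx
    exact ((hX.differentiableAt (hΩ.mem_nhds hx)).hasFDerivAt.restrictScalars ℝ).hasFDerivWithinAt
  exact measurable_image_of_fderivWithin hΩ.measurableSet hf hinj

/-- the derivative of `(t, v) ↦ (Y (t, v), v)` -/
theorem BFI_psi (Y : ℂ × ℂ → ℂ) (O : Set (ℂ × ℂ)) (hO : IsOpen O) (hY : DifferentiableOn ℂ Y O) :
    ∀ p ∈ O, HasFDerivWithinAt (fun p : ℂ × ℂ => (Y p, p.2))
      (((fderiv ℂ Y p).prod (ContinuousLinearMap.snd ℂ ℂ ℂ)).restrictScalars ℝ) O p := by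
  intro p hp
  have h1 : HasFDerivAt Y (fderiv ℂ Y p) p := (hY.differentiableAt (hO.mem_nhds hp)).hasFDerivAt
  have h2 : HasFDerivAt (fun q : ℂ × ℂ => q.2) (ContinuousLinearMap.snd ℂ ℂ ℂ) p := hasFDerivAt_snd
  exact ((h1.prodMk h2).restrictScalars ℝ).hasFDerivWithinAt

/-- the slice derivative -/
theorem BFI_slice (Y : ℂ × ℂ → ℂ) (p : ℂ × ℂ) (hY : DifferentiableAt ℂ Y p) :
    deriv (fun s => Y (s, p.2)) p.1 = fderiv ℂ Y p (1, 0) := by
  have h1 : HasFDerivAt Y (fderiv ℂ Y p) (p.1, p.2) := hY.hasFDerivAt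
  have h2 : HasDerivAt (fun s : ℂ => (s, p.2)) ((1 : ℂ), (0 : ℂ)) p.1 :=
    (hasDerivAt_id p.1).prodMk (hasDerivAt_const p.1 p.2)
  exact (h1.comp_hasDerivAt p.1 h2).deriv

theorem BFI_haar : (volume : Measure (ℂ × ℂ)).IsAddHaarMeasure := by
  rw [Measure.volume_eq_prod]
  infer_instance

/-- change of variables, two complex variables -/
theorem BFI_cov2 (Y : ℂ × ℂ → ℂ) (O : Set (ℂ × ℂ)) (hO : IsOpen O) (hY : DifferentiableOn ℂ Y O)
    (hinj : InjOn (fun p : ℂ × ℂ => (Y p, p.2)) O) (u : ℂ × ℂ → ℝ≥0∞) :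
    ∫⁻ z in (fun p : ℂ × ℂ => (Y p, p.2)) '' O, u z =
      ∫⁻ p in O, ENNReal.ofReal (Complex.normSq (deriv (fun s => Y (s, p.2)) p.1)) * u (Y p, p.2) := by
  have hh := BFI_haar
  rw [lintegral_image_eq_lintegral_abs_det_fderiv_mul volume hO.measurableSet (BFI_psi Y O hO hY) hinj]
  refine setLIntegral_congr_fun hO.measurableSet fun p hp => ?_
  rw [BFI_det2, BFI_slice Y p (hY.differentiableAt (hO.mem_nhds hp)), abs_of_nonneg (Complex.normSq_nonneg _)]
  simp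

theorem BFI_meas2 (Y : ℂ × ℂ → ℂ) (O : Set (ℂ × ℂ)) (hO : IsOpen O) (hY : DifferentiableOn ℂ Y O)
    (hinj : InjOn (fun p : ℂ × ℂ => (Y p, p.2)) O) : MeasurableSet ((fun p : ℂ × ℂ => (Y p, p.2)) '' O) :=
  measurable_image_of_fderivWithin hO.measurableSet (BFI_psi Y O hO hY) hinj

/-- scaling -/
theorem BFI_cov3 (a b : ℝ) (ha : 0 < a) (hb : 0 < b) (O : Set (ℂ × ℂ)) (hO : IsOpen O)
    (u : ℂ × ℂ → ℝ≥0∞) :
    ∫⁻ p in O, ENNReal.ofReal (a ^ 2 * b ^ 2) * u ((a : ℂ) * p.1, (b : ℂ) * p.2) =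
      ∫⁻ z in (fun p : ℂ × ℂ => ((a : ℂ) * p.1, (b : ℂ) * p.2)) '' O, u z := by
  have ha' : (a : ℂ) ≠ 0 := by exact_mod_cast ha.ne'
  have hb' : (b : ℂ) ≠ 0 := by exact_mod_cast hb.ne'
  have hder : ∀ p ∈ O, HasFDerivWithinAt (fun p : ℂ × ℂ => ((a : ℂ) * p.1, (b : ℂ) * p.2))
      ((((a : ℂ) • ContinuousLinearMap.fst ℂ ℂ ℂ).prod ((b : ℂ) • ContinuousLinearMap.snd ℂ ℂ ℂ)).restrictScalars ℝ) O p := by
    intro p _
    have h1 : HasFDerivAt (fun q : ℂ × ℂ => (a : ℂ) * q.1) ((a : ℂ) • ContinuousLinearMap.fst ℂ ℂ ℂ) p :=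
      hasFDerivAt_fst.const_mul _
    have h2 : HasFDerivAt (fun q : ℂ × ℂ => (b : ℂ) * q.2) ((b : ℂ) • ContinuousLinearMap.snd ℂ ℂ ℂ) p :=
      hasFDerivAt_snd.const_mul _
    exact ((h1.prodMk h2).restrictScalars ℝ).hasFDerivWithinAt
  have hinj : InjOn (fun p : ℂ × ℂ => ((a : ℂ) * p.1, (b : ℂ) * p.2)) O := by
    rintro ⟨x, y⟩ _ ⟨x', y'⟩ _ h
    simp only [Prod.mk.injEq] at h ⊢
    exact ⟨mul_left_cancel₀ ha' h.1, mul_left_cancel₀ hb' h.2⟩
  have hh := BFI_haar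
  rw [lintegral_image_eq_lintegral_abs_det_fderiv_mul volume hO.measurableSet hder hinj]
  refine setLIntegral_congr_fun hO.measurableSet fun p _ => ?_
  rw [BFI_det2, abs_of_nonneg (Complex.normSq_nonneg _)]
  congr 2
  simp [Complex.normSq_ofReal]
  ring

/-! ### smooth functions -/

theorem BFI_lapcont (T : ℂ → ℝ) (t : ℂ) (h : ContDiffAt ℝ ∞ T t) : ContinuousAt (lap T) t := by
  have h1 : ContinuousAt (iteratedFDeriv ℝ 2 T) t := by
    have h2 : ContDiffAt ℝ 0 (iteratedFDeriv ℝ 2 T) t :=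
      h.iteratedFDeriv_right (by rw [zero_add]; exact WithTop.coe_le_coe.2 (le_top : (2 : ℕ∞) ≤ ⊤))
    exact h2.continuousAt
  have h3 : ∀ v : Fin 2 → ℂ, ContinuousAt (fun z => iteratedFDeriv ℝ 2 T z v) t := by
    intro v
    exact (ContinuousMultilinearMap.apply ℝ (fun _ : Fin 2 => ℂ) ℝ v).continuous.continuousAt.comp h1
  exact ((h3 _).add (h3 _)).const_mul _

theorem BFI_int (θ T : ℂ → ℝ) (hθ : Continuous θ) (hc : HasCompactSupport θ)
    (hs : tsupport θ ⊆ ball 0 1) (hT : ∀ t ∈ ball (0 : ℂ) 1, ContDiffAt ℝ ∞ T t) :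
    Integrable (fun t => θ t * lap T t) := by
  have hsub : Function.support (fun t => θ t * lap T t) ⊆ Function.support θ := by
    intro t ht
    rw [Function.mem_support] at ht ⊢
    exact fun h => ht (by rw [h, zero_mul])
  have hts : tsupport (fun t => θ t * lap T t) ⊆ tsupport θ := closure_mono hsub
  have hcont : Continuous (fun t => θ t * lap T t) := by
    apply continuous_of_tsupport
    intro t ht
    exact hθ.continuousAt.mul (BFI_lapcont T t (hT t (hs (hts ht))))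
  exact hcont.integrable_of_hasCompactSupport (hc.mono' (hsub.trans subset_closure))

theorem BFI_laptheta (θ : ℂ → ℝ) : Function.support (lap θ) ⊆ tsupport θ := by
  intro t ht
  by_contra hn
  apply ht
  have h2 : iteratedFDeriv ℝ 2 θ t = 0 := by
    by_contra h
    exact hn (support_iteratedFDeriv_subset 2 h)
  unfold lap
  rw [h2]
  simp

theorem BFI_two : (2 : WithTop ℕ∞) ≤ ((⊤ : ℕ∞) : WithTop ℕ∞) := WithTop.coe_le_coe.2 (le_top : (2 : ℕ∞) ≤ ⊤)

/-- mass of `sph` -/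
theorem BFI_sph (hCH1 : CH1_stmt) (hIB1 : IB1_stmt) : ∃ C : ℝ, 0 < C ∧ ∀ (P Q : ℂ → ℂ) (E : ℝ), Adm P Q → 1 ≤ E →
    (∀ x ∈ ball (0 : ℂ) 1, |Up P Q x| ≤ E) →
    ∫⁻ x in ball (0 : ℂ) (1 / 2), ENNReal.ofReal (sph P Q x) ≤ ENNReal.ofReal (C * E) := by
  obtain ⟨θb, hθ1, hθ2⟩ : ∃ f : ContDiffBump (0 : ℂ), f.rIn = 1 / 2 ∧ f.rOut = 3 / 4 :=
    ⟨⟨1 / 2, 3 / 4, by norm_num, by norm_num⟩, rfl, rfl⟩
  obtain ⟨θ, hθd⟩ : ∃ θ : ℂ → ℝ, θ = θb := ⟨_, rfl⟩
  have hθs : ContDiff ℝ ∞ θ := by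
    rw [hθd]
    exact θb.contDiff
  have hθc : HasCompactSupport θ := by
    rw [hθd]
    exact θb.hasCompactSupport
  have hθt : tsupport θ ⊆ ball 0 1 := by
    rw [hθd, θb.tsupport_eq, hθ2]
    exact closedBall_subset_ball (by norm_num)
  have hθ0 : ∀ t, 0 ≤ θ t := by
    intro t
    rw [hθd]
    exact θb.nonneg
  have hθone : ∀ t ∈ ball (0 : ℂ) (1 / 2), θ t = 1 := by
    intro t ht
    rw [hθd]
    apply θb.one_of_mem_closedBall
    rw [hθ1]
    exact ball_subset_closedBall ht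
  have hlapθ : Integrable (fun t => |lap θ t|) := by
    have h1 : Continuous (lap θ) := by
      rw [continuous_iff_continuousAt]
      intro t
      exact BFI_lapcont θ t hθs.contDiffAt
    have h2 : HasCompactSupport (lap θ) := hθc.mono' (BFI_laptheta θ)
    exact (h1.integrable_of_hasCompactSupport h2).abs
  have hC1 : 0 ≤ ∫ t, |lap θ t| := integral_nonneg (fun t => abs_nonneg _)
  refine ⟨2 * (∫ t, |lap θ t|) + 1, by linarith, ?_⟩
  intro P Q E hA hE hU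
  obtain ⟨hUs, hUl⟩ := hCH1.2 (ball 0 1) P Q isOpen_ball hA.1 hA.2.1 hA.2.2
  have hUat : ∀ t ∈ ball (0 : ℂ) 1, ContDiffAt ℝ ∞ (Up P Q) t := fun t ht => hUs.contDiffAt (isOpen_ball.mem_nhds ht)
  have hint : Integrable (fun t => θ t * lap (Up P Q) t) := BFI_int θ (Up P Q) hθs.continuous hθc hθt hUat
  have hsph : ∀ t, 0 ≤ sph P Q t := fun t => div_nonneg (Complex.normSq_nonneg _) (sq_nonneg _)
  have hnn : ∀ t, 0 ≤ θ t * lap (Up P Q) t := by
    intro t
    by_cases ht : t ∈ ball (0 : ℂ) 1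
    · rw [hUl t ht]
      exact mul_nonneg (hθ0 t) (by linarith [hsph t])
    · have : θ t = 0 := by
        by_contra h
        exact ht (hθt (subset_closure h))
      rw [this, zero_mul]
  have h1 : ∫⁻ x in ball (0 : ℂ) (1 / 2), ENNReal.ofReal (sph P Q x) ≤
      ∫⁻ x, ENNReal.ofReal (2 * (θ x * lap (Up P Q) x)) := by
    calc ∫⁻ x in ball (0 : ℂ) (1 / 2), ENNReal.ofReal (sph P Q x) ≤
          ∫⁻ x in ball (0 : ℂ) (1 / 2), ENNReal.ofReal (2 * (θ x * lap (Up P Q) x)) := by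
          refine setLIntegral_mono_ae' measurableSet_ball (Eventually.of_forall ?_)
          intro x hx
          apply ENNReal.ofReal_le_ofReal
          rw [hθone x hx, hUl x (ball_subset_ball (by norm_num) hx)]
          linarith
      _ ≤ _ := setLIntegral_le_lintegral _ _
  refine h1.trans ?_
  rw [← ofReal_integral_eq_lintegral_ofReal (hint.const_mul 2) (Eventually.of_forall fun t => by
    have := hnn t
    show 0 ≤ 2 * (θ t * lap (Up P Q) t)
    linarith)]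
  apply ENNReal.ofReal_le_ofReal
  rw [integral_const_mul, hIB1 (ball 0 1) θ (Up P Q) isOpen_ball hθs hθc hθt hUs]
  have h2 : ∫ z, lap θ z * Up P Q z ≤ ∫ z, |lap θ z| * E := by
    by_cases hi : Integrable (fun z => lap θ z * Up P Q z)
    · apply integral_mono hi (hlapθ.mul_const E)
      intro z
      show lap θ z * Up P Q z ≤ |lap θ z| * E
      by_cases hz : z ∈ ball (0 : ℂ) 1
      · calc lap θ z * Up P Q z ≤ |lap θ z * Up P Q z| := le_abs_self _
          _ = |lap θ z| * |Up P Q z| := abs_mul _ _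
          _ ≤ |lap θ z| * E := mul_le_mul_of_nonneg_left (hU z hz) (abs_nonneg _)
      · have : lap θ z = 0 := by
          by_contra h
          exact hz (hθt (BFI_laptheta θ h))
        rw [this, zero_mul, abs_zero, zero_mul]
    · rw [integral_undef hi]
      exact integral_nonneg fun z => mul_nonneg (abs_nonneg _) (by linarith)
  rw [integral_mul_const] at h2
  nlinarith

end Pool.Agent.P2B
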