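import Pool.Agent.helper31.P2.BFIa

set_option autoImplicit false

open scoped ContDiff Topology ComplexConjugate ENNReal
open MeasureTheory Filter Set Metric

namespace Pool.Agent.P2B

open Pool.Agent.P2 Pool.Agent.P2I

theorem BFI_scmem (a b : ℝ) (ha : 0 < a) (s : ℂ) : (a : ℂ) * s ∈ ball (0 : ℂ) (a * b) ↔ s ∈ ball (0 : ℂ) b := by
  rw [mem_ball_zero_iff, mem_ball_zero_iff, norm_mul, Complex.norm_real, Real.norm_eq_abs, abs_of_pos ha]
  exact ⟨fun h => lt_of_mul_lt_mul_left h ha.le, fun h => mul_lt_mul_of_pos_left h ha⟩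

theorem BFI_scimg (a b : ℝ) (ha : 0 < a) : (fun s : ℂ => (a : ℂ) * s) '' ball 0 b = ball 0 (a * b) := by
  have ha' : (a : ℂ) ≠ 0 := by exact_mod_cast ha.ne'
  ext w
  constructor
  · rintro ⟨s, hs, rfl⟩
    exact (BFI_scmem a b ha s).2 hs
  · intro hw
    refine ⟨w / a, ?_, mul_div_cancel₀ _ ha'⟩
    rw [← BFI_scmem a b ha, mul_div_cancel₀ _ ha']
    exact hw

theorem BFI_hasderiv (a : ℝ) (t : ℂ) : HasDerivAt (fun s : ℂ => (a : ℂ) * s) (a : ℂ) t := by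
  have := (hasDerivAt_id t).const_mul (a : ℂ)
  simpa using this

/-- scaling of `lap` -/
theorem BFI_lapsc (hCH1 : CH1_stmt) (a : ℝ) (g : ℂ → ℝ) (t : ℂ) (hg : ContDiffAt ℝ 2 g ((a : ℂ) * t)) :
    lap (fun s => g ((a : ℂ) * s)) t = a ^ 2 * lap g ((a : ℂ) * t) := by
  have h := hCH1.1 univ (fun s : ℂ => (a : ℂ) * s) g t isOpen_univ
    (fun s _ => (BFI_hasderiv a s).differentiableAt.differentiableWithinAt) (mem_univ _) hg
  rw [(BFI_hasderiv a t).deriv, Complex.normSq_ofReal] at h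
  rw [h]
  ring

theorem BFI_injpsi (Y : ℂ × ℂ → ℂ) (A B : Set ℂ) (h : ∀ v ∈ B, InjOn (fun t => Y (t, v)) A) :
    InjOn (fun p : ℂ × ℂ => (Y p, p.2)) (A ×ˢ B) := by
  rintro ⟨t, v⟩ hp ⟨t', v'⟩ hp' he
  simp only [Prod.mk.injEq] at he
  obtain ⟨e1, e2⟩ := he
  subst e2
  have e3 : t = t' := h v hp.2 hp.1 hp'.1 e1
  rw [e3]

theorem BFI_claim (hCH1 : CH1_stmt) (hBUQ : BUQ_stmt) (hBZB : BZB_stmt) (hBZD : BZD_stmt) (hBT1 : BT1_stmt)
    (C0 α κ δ σ : ℝ) (hC0 : 1 ≤ C0) (hα0 : 0 < α) (hα1 : α ≤ 1) (hκ : 0 < κ) (hκ1 : κ ≤ 1 / 8) (hδ : 0 < δ) (hσ : 0 < σ) :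
    ∃ η₁ : ℝ, 0 < η₁ ∧ ∀ (Ω : Set E3) (G : E3 → ℝ) (F : ℂ × ℂ → E3) (E r : ℝ) (y : ℂ) (Y : ℂ × ℂ → ℂ),
      CD Ω G C0 α → FD Ω F E → y ∈ ball (0 : ℂ) 1 → 0 < r → r ≤ 1 →
      Band (fun p => F p 0) (fun p => F p 1) (ball 0 1) (κ / 2) r y Y →
      ENNReal.ofReal δ ≤ ∫⁻ x in (fun t => Y (t, 0)) '' ball 0 (κ / 8), ENNReal.ofReal (lap (fun x => G (F (x, 0))) x) →
      ∫⁻ p in (fun p : ℂ × ℂ => (Y p, p.2)) '' (ball (0 : ℂ) (κ / 2) ×ˢ ball (0 : ℂ) r), ENNReal.ofReal (ard G F p) ≤ ENNReal.ofReal η₁ →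
      ∀ t ∈ ball (0 : ℂ) (κ / 8), ∀ v ∈ ball (0 : ℂ) (r / 8), ‖zb F y Y (t, v) - zb F y Y (t, 0)‖ ≤ σ := by
  obtain ⟨C1, hC1, hB⟩ := hBZB C0 α hC0 hα0 hα1
  obtain ⟨c, hc, hD⟩ := hBZD C0 α hC0 hα0 hα1
  obtain ⟨η, hη, hT⟩ := hBT1 C1 α δ σ hC1 hα0 hα1 hδ hσ
  refine ⟨c * (κ / 2) ^ 2 * η, by positivity, ?_⟩
  intro Ω G F E r y Y hCD hFD hy hr hr1 hBand hmass harea
  obtain ⟨hz1, hz2, hz3⟩ := hB Ω G F E (κ / 2) r y Y hCD hFD hy (by linarith) (by linarith) hr hr1 hBand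
  obtain ⟨-, ha2⟩ := hD Ω G F E (κ / 2) r y Y hCD hFD hy (by linarith) (by linarith) hr hr1 hBand
  obtain ⟨-, hQ2, -⟩ := hBUQ _ _ E hFD.nd y hy (κ / 2) r Y (by linarith) hr hr1 hBand
  have hYd : DifferentiableOn ℂ Y (ball (0 : ℂ) (κ / 2) ×ˢ ball (0 : ℂ) r) := hBand.1
  have hO : IsOpen (ball (0 : ℂ) (κ / 2) ×ˢ ball (0 : ℂ) r) := isOpen_ball.prod isOpen_ball
  have ha : 0 < κ / 4 := by linarith
  -- abbreviations
  obtain ⟨W0, hW0⟩ : ∃ W0 : ℂ × ℂ → ℝ, W0 = fun p => G (fv F y p.1 (zb F y Y p)) := ⟨_, rfl⟩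
  obtain ⟨Λ, hΛ⟩ : ∃ Λ : ℂ × ℂ → ℂ × ℂ, Λ = fun p => (((κ / 4 : ℝ) : ℂ) * p.1, (r : ℂ) * p.2) := ⟨_, rfl⟩
  have hmem1 : ∀ t ∈ ball (0 : ℂ) 1, ((κ / 4 : ℝ) : ℂ) * t ∈ ball (0 : ℂ) (κ / 4) := by
    intro t ht
    have := (BFI_scmem (κ / 4) 1 ha t).2 ht
    rwa [mul_one] at this
  have hmem2 : ∀ t ∈ ball (0 : ℂ) 1, (r : ℂ) * t ∈ ball (0 : ℂ) r := by
    intro t ht
    have := (BFI_scmem r 1 hr t).2 ht
    rwa [mul_one] at this
  have hsub : ball (0 : ℂ) (κ / 4) ⊆ ball (0 : ℂ) (κ / 2) := ball_subset_ball (by linarith)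
  have hΛmem : ∀ p ∈ BI, Λ p ∈ ball (0 : ℂ) (κ / 2) ×ˢ ball (0 : ℂ) r := by
    intro p hp
    rw [hΛ]
    exact ⟨hsub (hmem1 _ hp.1), hmem2 _ hp.2⟩
  have hΛd : Differentiable ℂ Λ := by
    rw [hΛ]
    exact (differentiable_fst.const_mul _).prodMk (differentiable_snd.const_mul _)
  have hΛs : ContDiff ℝ ∞ Λ := by
    rw [hΛ]
    exact (contDiff_const.mul contDiff_fst).prodMk (contDiff_const.mul contDiff_snd)
  have hBI : IsOpen BI := isOpen_ball.prod isOpen_ball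
  -- slices of `W0` are smooth
  have hW0s : ContDiffOn ℝ ∞ W0 (ball (0 : ℂ) (κ / 2) ×ˢ ball (0 : ℂ) r) := by
    rw [hW0]
    exact hz2
  have hW0a : ∀ v ∈ ball (0 : ℂ) r, ∀ t ∈ ball (0 : ℂ) (κ / 2), ContDiffAt ℝ ∞ (fun s => W0 (s, v)) t := by
    intro v hv t ht
    have h1 : ContDiffAt ℝ ∞ W0 (t, v) := hW0s.contDiffAt (hO.mem_nhds ⟨ht, hv⟩)
    have h2 : ContDiffAt ℝ ∞ (fun s : ℂ => (s, v)) t := contDiffAt_id.prodMk contDiffAt_const
    exact h1.comp t h2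
  have hW0l : ∀ v ∈ ball (0 : ℂ) r, ∀ t ∈ ball (0 : ℂ) (κ / 2), lap (fun s => W0 (s, v)) t =
      Complex.normSq (deriv (fun s => Y (s, v)) t) * lap (fun x => G (F (x, v))) (Y (t, v)) := by
    intro v hv t ht
    rw [hW0]
    exact (hz3 t ht v hv).2.2.2.2.2.1
  have hlapW : ∀ t ∈ ball (0 : ℂ) 1, ∀ v ∈ ball (0 : ℂ) 1,
      lap (fun s => W0 (Λ (s, v))) t = (κ / 4) ^ 2 * lap (fun s => W0 (s, (r : ℂ) * v)) (((κ / 4 : ℝ) : ℂ) * t) := by
    intro t ht v hv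
    have h1 : ContDiffAt ℝ 2 (fun s => W0 (s, (r : ℂ) * v)) (((κ / 4 : ℝ) : ℂ) * t) :=
      (hW0a _ (hmem2 v hv) _ (hsub (hmem1 t ht))).of_le BFI_two
    rw [← BFI_lapsc hCH1 (κ / 4) _ t h1, hΛ]
  have hlapnn : ∀ v ∈ ball (0 : ℂ) r, ∀ t ∈ ball (0 : ℂ) (κ / 2), 0 ≤ lap (fun s => W0 (s, v)) t := by
    intro v hv t ht
    rw [hW0l v hv t ht]
    exact mul_nonneg (Complex.normSq_nonneg _) (hz3 t ht v hv).2.2.2.2.2.2
  have h0r : (0 : ℂ) ∈ ball (0 : ℂ) r := mem_ball_self hr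
  -- apply BT1
  have key := hT (fun p => zb F y Y (Λ p)) (fun p => W0 (Λ p)) ?_ ?_ ?_ ?_ ?_ ?_
  · intro t ht v hv
    have e1 : ((κ / 4 : ℝ) : ℂ) * (t / ((κ / 4 : ℝ) : ℂ)) = t :=
      mul_div_cancel₀ _ (by exact_mod_cast ha.ne')
    have e2 : (r : ℂ) * (v / (r : ℂ)) = v := mul_div_cancel₀ _ (by exact_mod_cast hr.ne')
    have h1 : t / ((κ / 4 : ℝ) : ℂ) ∈ ball (0 : ℂ) (1 / 2) := by
      rw [← BFI_scmem (κ / 4) (1 / 2) ha, e1]
      have : κ / 4 * (1 / 2) = κ / 8 := by ring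
      rw [this]
      exact ht
    have h2 : v / (r : ℂ) ∈ ball (0 : ℂ) (1 / 8) := by
      rw [← BFI_scmem r (1 / 8) hr, e2]
      have : r * (1 / 8) = r / 8 := by ring
      rw [this]
      exact hv
    have h3 := key _ h1 _ h2
    simp only [hΛ] at h3
    rw [e1, e2, mul_zero] at h3
    exact h3
  · -- Z holomorphic
    intro p hp
    have h1 : DifferentiableAt ℂ (zb F y Y) (Λ p) := hz1.differentiableAt (hO.mem_nhds (hΛmem p hp))
    exact (h1.comp p (hΛd p)).differentiableWithinAt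
  · -- W smooth
    intro p hp
    have h1 : ContDiffAt ℝ ∞ W0 (Λ p) := hW0s.contDiffAt (hO.mem_nhds (hΛmem p hp))
    exact (h1.comp p hΛs.contDiffAt).contDiffWithinAt
  · -- bounds
    intro p hp
    have hp' := hΛmem p hp
    have h3 := hz3 (Λ p).1 hp'.1 (Λ p).2 hp'.2
    refine ⟨h3.1, ?_, ?_⟩
    · rw [hW0]
      exact h3.2.2.2.1
    · rw [hlapW p.1 hp.1 p.2 hp.2]
      exact mul_nonneg (by positivity) (hlapnn _ (hmem2 _ hp.2) _ (hsub (hmem1 _ hp.1)))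
  · -- Hoelder
    intro t ht v hv v' hv'
    have h3 := hz3 _ (hsub (hmem1 t ht)) _ (hmem2 v hv)
    have h4 := h3.2.2.2.2.1 _ (hmem2 v' hv')
    rw [hW0, hΛ]
    exact h4
  · -- mass
    have hcontT : ∀ t ∈ ball (0 : ℂ) 1, ContDiffAt ℝ ∞ (fun s => W0 (Λ (s, 0))) t := by
      intro t ht
      have h1 : ContDiffAt ℝ ∞ W0 (Λ (t, 0)) := hW0s.contDiffAt (hO.mem_nhds (hΛmem _ ⟨ht, mem_ball_self one_pos⟩))
      have h2 : ContDiffAt ℝ ∞ (fun s : ℂ => Λ (s, 0)) t :=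
        hΛs.contDiffAt.comp t (contDiffAt_id.prodMk contDiffAt_const)
      exact h1.comp t h2
    have hcl : closedBall (0 : ℂ) (1 / 2) ⊆ ball 0 1 := closedBall_subset_ball (by norm_num)
    have hint : IntegrableOn (fun t => lap (fun s => W0 (Λ (s, 0))) t) (ball (0 : ℂ) (1 / 2)) := by
      have h1 : ContinuousOn (fun t => lap (fun s => W0 (Λ (s, 0))) t) (closedBall (0 : ℂ) (1 / 2)) := by
        intro t ht
        exact (BFI_lapcont _ t (hcontT t (hcl ht))).continuousWithinAt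
      exact (h1.integrableOn_compact (isCompact_closedBall _ _)).mono_set ball_subset_closedBall
    have hnn : 0 ≤ᵐ[volume.restrict (ball (0 : ℂ) (1 / 2))] (fun t => lap (fun s => W0 (Λ (s, 0))) t) := by
      refine (ae_restrict_iff' measurableSet_ball).2 (Eventually.of_forall fun t ht => ?_)
      have ht1 : t ∈ ball (0 : ℂ) 1 := hcl (ball_subset_closedBall ht)
      show 0 ≤ lap (fun s => W0 (Λ (s, 0))) t
      rw [hlapW t ht1 0 (mem_ball_self one_pos), mul_zero]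
      exact mul_nonneg (by positivity) (hlapnn _ h0r _ (hsub (hmem1 _ ht1)))
    have h1 : ENNReal.ofReal δ ≤ ENNReal.ofReal (∫ t in ball (0 : ℂ) (1 / 2), lap (fun s => W0 (Λ (s, 0))) t) := by
      rw [ofReal_integral_eq_lintegral_ofReal hint hnn]
      refine hmass.trans (le_of_eq ?_)
      have hY0 : DifferentiableOn ℂ (fun t => Y (t, 0)) (ball 0 (κ / 8)) := by
        intro t ht
        have ht' : t ∈ ball (0 : ℂ) (κ / 2) := ball_subset_ball (by linarith) ht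
        have h1 : DifferentiableAt ℂ Y (t, 0) := hYd.differentiableAt (hO.mem_nhds ⟨ht', h0r⟩)
        exact (h1.comp t (differentiableAt_id.prodMk (differentiableAt_const _))).differentiableWithinAt
      rw [BFI_cov1 (fun t => Y (t, 0)) (ball 0 (κ / 8)) isOpen_ball hY0
        ((hQ2 0 h0r).1.mono (ball_subset_ball (by linarith)))]
      have e1 : ∫⁻ w in ball (0 : ℂ) (κ / 8), ENNReal.ofReal (Complex.normSq (deriv (fun t => Y (t, 0)) w)) *
          ENNReal.ofReal (lap (fun x => G (F (x, 0))) (Y (w, 0))) =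
          ∫⁻ w in ball (0 : ℂ) (κ / 8), ENNReal.ofReal (lap (fun s => W0 (s, 0)) w) := by
        refine setLIntegral_congr_fun measurableSet_ball fun w hw => ?_
        rw [hW0l 0 h0r w (ball_subset_ball (by linarith) hw), ENNReal.ofReal_mul (Complex.normSq_nonneg _)]
      rw [e1]
      have e2 : ball (0 : ℂ) (κ / 8) = (fun s : ℂ => ((κ / 4 : ℝ) : ℂ) * s) '' ball 0 (1 / 2) := by
        rw [BFI_scimg (κ / 4) (1 / 2) ha]
        congr 1
        ring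
      have hinj : InjOn (fun s : ℂ => ((κ / 4 : ℝ) : ℂ) * s) (ball 0 (1 / 2)) := by
        intro s _ s' _ h
        exact mul_left_cancel₀ (by exact_mod_cast ha.ne') h
      rw [e2, BFI_cov1 (fun s : ℂ => ((κ / 4 : ℝ) : ℂ) * s) (ball 0 (1 / 2)) isOpen_ball
        (fun s _ => (BFI_hasderiv (κ / 4) s).differentiableAt.differentiableWithinAt) hinj]
      refine setLIntegral_congr_fun measurableSet_ball fun w hw => ?_
      have hw1 : w ∈ ball (0 : ℂ) 1 := hcl (ball_subset_closedBall hw)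
      rw [(BFI_hasderiv (κ / 4) w).deriv, ← ENNReal.ofReal_mul (Complex.normSq_nonneg _), Complex.normSq_ofReal,
        hlapW w hw1 0 (mem_ball_self one_pos), mul_zero]
      congr 1
      ring
    have h2 : 0 ≤ ∫ t in ball (0 : ℂ) (1 / 2), lap (fun s => W0 (Λ (s, 0))) t := integral_nonneg_of_ae hnn
    exact (ENNReal.ofReal_le_ofReal_iff h2).1 h1
  · -- area
    obtain ⟨u, hu⟩ : ∃ u : ℂ × ℂ → ℝ≥0∞, u = fun q => ENNReal.ofReal
      (Complex.normSq (deriv (fun w => zb F y Y (q.1, w)) q.2) * lap (fun s => W0 (s, q.2)) q.1) := ⟨_, rfl⟩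
    have hsq : ball (0 : ℂ) (9 / 10) ×ˢ ball (0 : ℂ) (9 / 10) ⊆ BI :=
      prod_mono (ball_subset_ball (by norm_num)) (ball_subset_ball (by norm_num))
    calc ∫⁻ p in ball (0 : ℂ) (9 / 10) ×ˢ ball (0 : ℂ) (9 / 10), ENNReal.ofReal
          (Complex.normSq (deriv (fun w => zb F y Y (Λ (p.1, w))) p.2) * lap (fun s => W0 (Λ (s, p.2))) p.1) ≤
        ∫⁻ p in BI, ENNReal.ofReal
          (Complex.normSq (deriv (fun w => zb F y Y (Λ (p.1, w))) p.2) * lap (fun s => W0 (Λ (s, p.2))) p.1) :=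
          lintegral_mono_set hsq
      _ = ∫⁻ p in BI, ENNReal.ofReal ((κ / 4) ^ 2 * r ^ 2) * u (((κ / 4 : ℝ) : ℂ) * p.1, (r : ℂ) * p.2) := by
          refine setLIntegral_congr_fun hBI.measurableSet fun p hp => ?_
          rw [hlapW p.1 hp.1 p.2 hp.2, hu, ← ENNReal.ofReal_mul (by positivity)]
          congr 1
          have h1 : deriv (fun w => zb F y Y (Λ (p.1, w))) p.2 =
              (r : ℂ) * deriv (fun w => zb F y Y (((κ / 4 : ℝ) : ℂ) * p.1, w)) ((r : ℂ) * p.2) := by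
            rw [hΛ]
            have h2 := deriv_comp_mul_left (r : ℂ) (fun w => zb F y Y (((κ / 4 : ℝ) : ℂ) * p.1, w)) p.2
            simp only [smul_eq_mul] at h2
            exact h2
          rw [h1, Complex.normSq_mul, Complex.normSq_ofReal]
          ring
      _ = ∫⁻ z in (fun p : ℂ × ℂ => (((κ / 4 : ℝ) : ℂ) * p.1, (r : ℂ) * p.2)) '' BI, u z :=
          BFI_cov3 (κ / 4) r ha hr BI hBI u
      _ ≤ ∫⁻ z in ball (0 : ℂ) (κ / 4) ×ˢ ball (0 : ℂ) r, u z := by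
          apply lintegral_mono_set
          rintro _ ⟨p, hp, rfl⟩
          exact ⟨hmem1 _ hp.1, hmem2 _ hp.2⟩
      _ ≤ ∫⁻ z in ball (0 : ℂ) (κ / 4) ×ˢ ball (0 : ℂ) r, ENNReal.ofReal ((c * (κ / 2) ^ 2)⁻¹) *
            (ENNReal.ofReal (Complex.normSq (deriv (fun s => Y (s, z.2)) z.1)) * ENNReal.ofReal (ard G F (Y z, z.2))) := by
          refine setLIntegral_mono_ae' (measurableSet_ball.prod measurableSet_ball) (Eventually.of_forall ?_)
          intro z hz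
          have hz1' : z.1 ∈ ball (0 : ℂ) (κ / 2 / 2) := by
            have : κ / 2 / 2 = κ / 4 := by ring
            rw [this]
            exact hz.1
          have h1 := ha2 z.1 hz1' z.2 hz.2
          rw [hu, ← ENNReal.ofReal_mul (Complex.normSq_nonneg _), ← ENNReal.ofReal_mul (by positivity)]
          apply ENNReal.ofReal_le_ofReal
          rw [hW0]
          have hpos : 0 < c * (κ / 2) ^ 2 := by positivity
          rw [inv_mul_eq_div, le_div_iff₀ hpos, mul_comm]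
          exact h1
      _ = ENNReal.ofReal ((c * (κ / 2) ^ 2)⁻¹) * ∫⁻ z in ball (0 : ℂ) (κ / 4) ×ˢ ball (0 : ℂ) r,
            (ENNReal.ofReal (Complex.normSq (deriv (fun s => Y (s, z.2)) z.1)) * ENNReal.ofReal (ard G F (Y z, z.2))) :=
          lintegral_const_mul' _ _ ENNReal.ofReal_ne_top
      _ ≤ ENNReal.ofReal ((c * (κ / 2) ^ 2)⁻¹) * ∫⁻ z in ball (0 : ℂ) (κ / 2) ×ˢ ball (0 : ℂ) r,
            (ENNReal.ofReal (Complex.normSq (deriv (fun s => Y (s, z.2)) z.1)) * ENNReal.ofReal (ard G F (Y z, z.2))) := by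
          apply mul_le_mul_right
          exact lintegral_mono_set (prod_mono hsub subset_rfl)
      _ = ENNReal.ofReal ((c * (κ / 2) ^ 2)⁻¹) * ∫⁻ p in (fun p : ℂ × ℂ => (Y p, p.2)) '' (ball (0 : ℂ) (κ / 2) ×ˢ ball (0 : ℂ) r),
            ENNReal.ofReal (ard G F p) := by
          rw [BFI_cov2 Y _ hO hYd (BFI_injpsi Y _ _ fun v hv => (hQ2 v hv).1)]
      _ ≤ ENNReal.ofReal ((c * (κ / 2) ^ 2)⁻¹) * ENNReal.ofReal (c * (κ / 2) ^ 2 * η) := by
          apply mul_le_mul_right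
          exact harea
      _ = ENNReal.ofReal η := by
          rw [← ENNReal.ofReal_mul (by positivity)]
          congr 1
          have hpos : c * (κ / 2) ^ 2 ≠ 0 := by positivity
          field_simp

end Pool.Agent.P2B
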