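import Pool.Agent.helper31.P2.BFIb

set_option autoImplicit false

open scoped ContDiff Topology ComplexConjugate ENNReal
open MeasureTheory Filter Set Metric

namespace Pool.Agent.P2B

open Pool.Agent.P2 Pool.Agent.P2I

theorem BFI_ratio (P₀ Q₀ t t₀ z z₀ L L₀ : ℂ) (n : ℝ) (hn : 0 < n) (hn2 : Complex.normSq P₀ + Complex.normSq Q₀ = n ^ 2)
    (hL : L ≠ 0) (A B : E3)
    (hA : A = L • ![(P₀ - t * conj Q₀) / (n : ℂ), (Q₀ + t * conj P₀) / (n : ℂ), z])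
    (hB : B = L₀ • ![(P₀ - t₀ * conj Q₀) / (n : ℂ), (Q₀ + t₀ * conj P₀) / (n : ℂ), z₀]) :
    A 2 * (Real.sqrt (pq B) : ℂ) / (A 0 * conj (B 0) + A 1 * conj (B 1)) =
      z * (((‖L₀‖ * Real.sqrt (1 + Complex.normSq t₀) : ℝ) : ℂ) / (conj L₀ * (1 + t * conj t₀))) := by
  have hnc : (n : ℂ) ≠ 0 := by exact_mod_cast hn.ne'
  have hn2c : P₀ * conj P₀ + Q₀ * conj Q₀ = (n : ℂ) ^ 2 := by
    rw [Complex.mul_conj, Complex.mul_conj]
    exact_mod_cast hn2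
  have hA0 : A 0 = L * ((P₀ - t * conj Q₀) / n) := by rw [hA]; simp
  have hA1 : A 1 = L * ((Q₀ + t * conj P₀) / n) := by rw [hA]; simp
  have hA2 : A 2 = L * z := by rw [hA]; simp
  have hB0 : B 0 = L₀ * ((P₀ - t₀ * conj Q₀) / n) := by rw [hB]; simp
  have hB1 : B 1 = L₀ * ((Q₀ + t₀ * conj P₀) / n) := by rw [hB]; simp
  have hden : A 0 * conj (B 0) + A 1 * conj (B 1) = L * (conj L₀ * (1 + t * conj t₀)) := by
    rw [hA0, hA1, hB0, hB1]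
    simp only [map_mul, map_div₀, map_sub, map_add, Complex.conj_conj, Complex.conj_ofReal]
    have : L * ((P₀ - t * conj Q₀) / (n : ℂ)) * (conj L₀ * ((conj P₀ - conj t₀ * Q₀) / (n : ℂ))) +
        L * ((Q₀ + t * conj P₀) / (n : ℂ)) * (conj L₀ * ((conj Q₀ + conj t₀ * P₀) / (n : ℂ))) =
        L * conj L₀ * ((P₀ * conj P₀ + Q₀ * conj Q₀) * (1 + t * conj t₀)) / (n : ℂ) ^ 2 := by
      field_simp
      ring
    rw [this, hn2c]
    field_simp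
  have hpq : pq B = (‖L₀‖ * Real.sqrt (1 + Complex.normSq t₀)) ^ 2 := by
    have h1 : (1 : ℝ) + Complex.normSq t₀ ≥ 0 := by
      have := Complex.normSq_nonneg t₀
      linarith
    rw [mul_pow, Real.sq_sqrt h1, ← Complex.normSq_eq_norm_sq]
    unfold pq
    have hc : ((Complex.normSq (B 0) + Complex.normSq (B 1) : ℝ) : ℂ) =
        ((Complex.normSq L₀ * (1 + Complex.normSq t₀) : ℝ) : ℂ) := by
      push_cast
      rw [← Complex.mul_conj, ← Complex.mul_conj, ← Complex.mul_conj, ← Complex.mul_conj, hB0, hB1]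
      simp only [map_mul, map_div₀, map_sub, map_add, Complex.conj_conj, Complex.conj_ofReal]
      have : L₀ * ((P₀ - t₀ * conj Q₀) / (n : ℂ)) * (conj L₀ * ((conj P₀ - conj t₀ * Q₀) / (n : ℂ))) +
          L₀ * ((Q₀ + t₀ * conj P₀) / (n : ℂ)) * (conj L₀ * ((conj Q₀ + conj t₀ * P₀) / (n : ℂ))) =
          L₀ * conj L₀ * ((P₀ * conj P₀ + Q₀ * conj Q₀) * (1 + t₀ * conj t₀)) / (n : ℂ) ^ 2 := by
        field_simp
        ring
      rw [this, hn2c]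
      field_simp
    exact_mod_cast hc
  have hsq : Real.sqrt (pq B) = ‖L₀‖ * Real.sqrt (1 + Complex.normSq t₀) := by
    rw [hpq, Real.sqrt_sq (by positivity)]
  rw [hden, hsq, hA2, mul_assoc, mul_div_mul_left _ _ hL, mul_div_assoc]

theorem BFI_cnorm (L₀ t t₀ : ℂ) (hL₀ : L₀ ≠ 0) (ht : ‖t‖ ≤ 1 / 8) (ht₀ : ‖t₀‖ ≤ 1 / 8) :
    ‖((‖L₀‖ * Real.sqrt (1 + Complex.normSq t₀) : ℝ) : ℂ) / (conj L₀ * (1 + t * conj t₀))‖ ≤ 2 := by
  have h0 : 0 < ‖L₀‖ := norm_pos_iff.2 hL₀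
  have h1 : 1 - 1 / 64 ≤ ‖1 + t * conj t₀‖ := by
    have h2 : ‖t * conj t₀‖ ≤ 1 / 64 := by
      rw [norm_mul, RCLike.norm_conj]
      nlinarith [norm_nonneg t, norm_nonneg t₀]
    have h3 : ‖(1 : ℂ)‖ - ‖-(t * conj t₀)‖ ≤ ‖(1 : ℂ) - -(t * conj t₀)‖ := norm_sub_norm_le _ _
    rw [norm_neg, sub_neg_eq_add, norm_one] at h3
    linarith
  have h4 : Real.sqrt (1 + Complex.normSq t₀) ≤ 3 / 2 := by
    rw [Real.sqrt_le_iff]
    refine ⟨by norm_num, ?_⟩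
    rw [Complex.normSq_eq_norm_sq]
    nlinarith [norm_nonneg t₀]
  rw [norm_div, norm_mul, RCLike.norm_conj, Complex.norm_real, Real.norm_eq_abs, abs_of_nonneg (by positivity),
    mul_div_mul_left _ _ h0.ne', div_le_iff₀ (by linarith)]
  linarith

theorem BFI_thin (hBUQ : BUQ_stmt) (hBBS : BBS_stmt) (hBZB : BZB_stmt)
    (C0 α κ σ : ℝ) (hC0 : 1 ≤ C0) (hα0 : 0 < α) (hα1 : α ≤ 1) (hκ : 0 < κ) (hκ1 : κ ≤ 1 / 8) (hσ : 0 < σ)
    (Ω : Set E3) (G : E3 → ℝ) (F : ℂ × ℂ → E3) (E r : ℝ) (y : ℂ) (Y : ℂ × ℂ → ℂ)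
    (hCD : CD Ω G C0 α) (hFD : FD Ω F E) (hy : y ∈ ball (0 : ℂ) 1) (hr : 0 < r) (hr1 : r ≤ 1)
    (hBand : Band (fun p => F p 0) (fun p => F p 1) (ball 0 (1 / 2)) (κ / 2) r y Y)
    (hth : ∀ t ∈ ball (0 : ℂ) (κ / 8), ∀ v ∈ ball (0 : ℂ) (r / 8), ‖zb F y Y (t, v) - zb F y Y (t, 0)‖ ≤ σ / 4)
    (t₀ : ℂ) (ht₀ : t₀ ∈ ball (0 : ℂ) (κ / 32)) :
    ∃ Y' : ℂ × ℂ → ℂ, Band (fun p => F p 0) (fun p => F p 1) (ball 0 (1 / 2)) (κ / 16) (r / 16) (Y (t₀, 0)) Y' ∧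
      ∀ t ∈ ball (0 : ℂ) (κ / 16), ∀ v ∈ ball (0 : ℂ) (r / 16),
        ‖zb F (Y (t₀, 0)) Y' (t, v) - zb F (Y (t₀, 0)) Y' (t, 0)‖ ≤ σ := by
  have hh : ball (0 : ℂ) (1 / 2) ⊆ ball 0 1 := ball_subset_ball (by norm_num)
  have hBand1 : Band (fun p => F p 0) (fun p => F p 1) (ball 0 1) (κ / 2) r y Y := by
    refine ⟨hBand.1, hBand.2.1, fun t ht v hv => ?_⟩
    obtain ⟨h1, h2⟩ := hBand.2.2 t ht v hv
    exact ⟨hh h1, h2⟩
  have ht₀' : t₀ ∈ ball (0 : ℂ) (κ / 2) := ball_subset_ball (by linarith) ht₀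
  have hnt : ‖t₀‖ < κ / 32 := by rwa [mem_ball_zero_iff] at ht₀
  obtain ⟨l, hl, hB⟩ := hBBS _ _ E hFD.nd y hy (ball 0 (1 / 2)) (κ / 2) r Y hh hr hr1 (by linarith) hBand t₀ ht₀'
  have hB1 := hB (κ / 16) (by
    intro s hs
    rw [mem_ball_zero_iff] at hs
    have h1 : ‖s + t₀‖ < κ / 16 + κ / 32 := lt_of_le_of_lt (norm_add_le _ _) (by linarith)
    have h2 : 1 / 2 ≤ ‖1 - conj t₀ * s‖ := by
      have h3 : ‖(1 : ℂ)‖ - ‖conj t₀ * s‖ ≤ ‖1 - conj t₀ * s‖ := norm_sub_norm_le _ _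
      rw [norm_one, norm_mul, RCLike.norm_conj] at h3
      nlinarith [norm_nonneg t₀, norm_nonneg s]
    nlinarith)
  obtain ⟨m, hm⟩ : ∃ m : ℂ → ℂ, m = fun s => (l * s + t₀) / (1 - conj t₀ * (l * s)) := ⟨_, rfl⟩
  have hmn : ∀ s ∈ ball (0 : ℂ) (κ / 16), m s ∈ ball (0 : ℂ) (κ / 8) := by
    intro s hs
    rw [mem_ball_zero_iff] at hs ⊢
    have hls : ‖l * s‖ < κ / 16 := by rwa [norm_mul, hl, one_mul]
    have h1 : ‖l * s + t₀‖ < κ / 16 + κ / 32 := lt_of_le_of_lt (norm_add_le _ _) (by linarith)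
    have h2 : 7 / 8 ≤ ‖1 - conj t₀ * (l * s)‖ := by
      have h3 : ‖(1 : ℂ)‖ - ‖conj t₀ * (l * s)‖ ≤ ‖1 - conj t₀ * (l * s)‖ := norm_sub_norm_le _ _
      rw [norm_one, norm_mul, RCLike.norm_conj] at h3
      nlinarith [norm_nonneg t₀, norm_nonneg (l * s)]
    rw [hm]
    simp only
    rw [norm_div, div_lt_iff₀ (by linarith)]
    nlinarith
  have hYe : (fun p : ℂ × ℂ => Y ((l * p.1 + t₀) / (1 - conj t₀ * (l * p.1)), p.2)) = fun p => Y (m p.1, p.2) := by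
    rw [hm]
  rw [hYe] at hB1
  refine ⟨fun p => Y (m p.1, p.2), ?_, ?_⟩
  · refine ⟨hB1.1.mono (prod_mono subset_rfl (ball_subset_ball (by linarith))), hB1.2.1, fun t ht v hv => ?_⟩
    exact hB1.2.2 t ht v (ball_subset_ball (by linarith) hv)
  · -- the third coordinate
    obtain ⟨C1, hC1, hZ⟩ := hBZB C0 α hC0 hα0 hα1
    obtain ⟨-, -, hz3⟩ := hZ Ω G F E (κ / 2) r y Y hCD hFD hy (by linarith) (by linarith) hr hr1 hBand1
    obtain ⟨hQ1, -, -⟩ := hBUQ _ _ E hFD.nd y hy (κ / 2) r Y (by linarith) hr hr1 hBand1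
    have hyB : (y, (0 : ℂ)) ∈ BI := ⟨hy, mem_ball_self one_pos⟩
    have hpq : 0 < pq (F (y, 0)) := (hCD.nn _ (hFD.mem _ hyB)).1
    have hn : 0 < nr F y := Real.sqrt_pos.2 hpq
    have hn2 : Complex.normSq (F (y, 0) 0) + Complex.normSq (F (y, 0) 1) = nr F y ^ 2 := by
      unfold nr
      rw [Real.sq_sqrt hpq.le]
      rfl
    have h0r : (0 : ℂ) ∈ ball (0 : ℂ) r := mem_ball_self hr
    obtain ⟨L, hL⟩ : ∃ L : ℂ × ℂ → ℂ, L = fun p =>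
      (F (Y p, p.2) 0 * conj (F (y, 0) 0) + F (Y p, p.2) 1 * conj (F (y, 0) 1)) / (nr F y : ℂ) := ⟨_, rfl⟩
    have hLne : ∀ t ∈ ball (0 : ℂ) (κ / 2), ∀ v ∈ ball (0 : ℂ) r, L (t, v) ≠ 0 := by
      intro t ht v hv
      rw [hL]
      exact div_ne_zero (hQ1 t ht v hv).2.1 (by exact_mod_cast hn.ne')
    have hrat : ∀ t ∈ ball (0 : ℂ) (κ / 16), ∀ v ∈ ball (0 : ℂ) (r / 16),
        zb F (Y (t₀, 0)) (fun p => Y (m p.1, p.2)) (t, v) = zb F y Y (m t, v) *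
          (((‖L (t₀, 0)‖ * Real.sqrt (1 + Complex.normSq t₀) : ℝ) : ℂ) / (conj (L (t₀, 0)) * (1 + m t * conj t₀))) := by
      intro t ht v hv
      have hmt : m t ∈ ball (0 : ℂ) (κ / 2) := ball_subset_ball (by linarith) (hmn t ht)
      have hv' : v ∈ ball (0 : ℂ) r := ball_subset_ball (by linarith) hv
      have hA := (hz3 (m t) hmt v hv').2.2.1
      have hBB := (hz3 t₀ ht₀' 0 h0r).2.2.1
      unfold fv at hA hBB
      have h5 := BFI_ratio (F (y, 0) 0) (F (y, 0) 1) (m t) t₀ (zb F y Y (m t, v)) (zb F y Y (t₀, 0)) (L (m t, v)) (L (t₀, 0))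
        (nr F y) hn hn2 (hLne _ hmt v hv') (F (Y (m t, v), v)) (F (Y (t₀, 0), 0)) (by rw [hL]; exact hA) (by rw [hL]; exact hBB)
      exact h5
    intro t ht v hv
    have h0 : (0 : ℂ) ∈ ball (0 : ℂ) (r / 16) := mem_ball_self (by linarith)
    rw [hrat t ht v hv, hrat t ht 0 h0, ← sub_mul, norm_mul]
    have h1 := hth (m t) (hmn t ht) v (ball_subset_ball (by linarith) hv)
    have h2 := BFI_cnorm (L (t₀, 0)) (m t) t₀ (hLne t₀ ht₀' 0 h0r) (by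
      have := hmn t ht
      rw [mem_ball_zero_iff] at this
      linarith) (by linarith)
    calc ‖zb F y Y (m t, v) - zb F y Y (m t, 0)‖ * _ ≤ σ / 4 * 2 :=
          mul_le_mul h1 h2 (norm_nonneg _) (by linarith)
      _ ≤ σ := by linarith

end Pool.Agent.P2B
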