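import Pool.Agent.helper37.P2.SpecB
import Pool.Agent.helper53.P2.MSS

set_option autoImplicit false

/-!
Row PMIN of project P2 (MP_063734_an), part 1: topology of the quasi-attractor (no analysis).
-/

open scoped ContDiff Topology
open MeasureTheory Filter Set Metric MvPolynomial Pool.Agent.helper37.QA

namespace Pool.Agent.P2

section topo
variable {d : ℕ} {f : Endo 2 d} {Us : ℕ → Set (PP 2)} {K : Set (PP 2)}

theorem PMIN_fK (hC : Core f Us K) {x : PP 2} (hx : x ∈ K) : f.map x ∈ K := by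
  rw [hC.inter, mem_iInter] at hx ⊢
  intro n
  exact (hC.trap n).2.2 ⟨x, subset_closure (hx n), rfl⟩

theorem PMIN_Us (hC : Core f Us K) {x : PP 2} (hx : x ∈ K) (n : ℕ) : x ∈ Us n := by
  rw [hC.inter, mem_iInter] at hx
  exact hx n

theorem PMIN_cl (hC : Core f Us K) {x : PP 2} (hx : ∀ n, x ∈ closure (Us n)) : x ∈ K := by
  rw [hC.inter, mem_iInter]
  intro n
  exact hC.anti n (hx (n + 1))

theorem PMIN_anti1 (hC : Core f Us K) (n : ℕ) : Us (n + 1) ⊆ Us n :=
  subset_closure.trans (hC.anti n)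

theorem PMIN_anti (hC : Core f Us K) : Antitone Us :=
  antitone_nat_of_succ_le (PMIN_anti1 hC)

theorem PMIN_iterK (hC : Core f Us K) {x : PP 2} (hx : x ∈ K) (n : ℕ) : f.map^[n] x ∈ K := by
  induction n with
  | zero => exact hx
  | succ n ih =>
    rw [Function.iterate_succ_apply']
    exact PMIN_fK hC ih

theorem PMIN_surj (hC : Core f Us K) {y : PP 2} (hy : y ∈ K) : ∃ x ∈ K, f.map x = y := by
  by_cases h : ∀ n, y ∈ f.map '' closure (Us n)
  · have hcl : ∀ n, IsClosed (closure (Us n) ∩ f.map ⁻¹' {y}) := fun n =>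
      isClosed_closure.inter (isClosed_singleton.preimage (map_cont f))
    obtain ⟨x, hx⟩ := IsCompact.nonempty_iInter_of_sequence_nonempty_isCompact_isClosed
      (fun n => closure (Us n) ∩ f.map ⁻¹' {y})
      (fun n => inter_subset_inter_left _ (closure_mono (PMIN_anti1 hC n)))
      (fun n => by
        obtain ⟨x, hx, hxy⟩ := h n
        exact ⟨x, hx, hxy⟩)
      (hcl 0).isCompact hcl
    rw [mem_iInter] at hx
    exact ⟨x, PMIN_cl hC fun n => (hx n).1, (hx 0).2⟩
  · push Not at h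
    obtain ⟨n, hn⟩ := h
    have hcl : IsClosed (f.map '' closure (Us n)) :=
      (isClosed_closure.isCompact.image (map_cont f)).isClosed
    have hop : IsOpen (Us n ∩ {y}ᶜ) := (hC.trap n).1.inter isClosed_singleton.isOpen_compl
    have hsub : f.map '' closure (Us n) ⊆ Us n ∩ {y}ᶜ := by
      intro z hz
      refine ⟨(hC.trap n).2.2 hz, ?_⟩
      intro hzy
      apply hn
      rw [← mem_singleton_iff.1 hzy]
      exact hz
    obtain ⟨V, hVo, hCV, hVc⟩ := normal_exists_closure_subset hcl hop hsub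
    obtain ⟨x0, hx0⟩ := hC.ne
    have hx1 : f.map x0 ∈ V := hCV ⟨x0, subset_closure (PMIN_Us hC hx0 n), rfl⟩
    have hVt : IsTrapping f V := by
      refine ⟨hVo, ⟨_, hx1⟩, ?_⟩
      exact (image_mono (hVc.trans (inter_subset_left.trans subset_closure))).trans hCV
    have hyV := hC.minimal V hVt ⟨f.map x0, hx1, PMIN_fK hC hx0⟩ hy
    exact absurd rfl (hVc (subset_closure hyV)).2

theorem PMIN_itersurj (hC : Core f Us K) (n : ℕ) : ∀ {y : PP 2}, y ∈ K → ∃ x ∈ K, f.map^[n] x = y := by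
  induction n with
  | zero => exact fun {y} hy => ⟨y, hy, rfl⟩
  | succ n ih =>
    intro y hy
    obtain ⟨z, hz, hzy⟩ := ih hy
    obtain ⟨x, hx, hxz⟩ := PMIN_surj hC hz
    refine ⟨x, hx, ?_⟩
    rw [Function.iterate_succ_apply, hxz, hzy]

/-- trapping for the `p`-th iterate, and it meets `K` -/
def PMIN_N (f : Endo 2 d) (K : Set (PP 2)) (p : ℕ) (V : Set (PP 2)) : Prop :=
  IsOpen V ∧ f.map^[p] '' closure V ⊆ V ∧ (V ∩ K).Nonempty

theorem PMIN_cover (hC : Core f Us K) {p : ℕ} (hp : 0 < p) {V : Set (PP 2)} (hV : PMIN_N f K p V) :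
    ∀ x ∈ K, ∃ j < p, f.map^[j] x ∈ V := by
  obtain ⟨hVo, hVt, hVK⟩ := hV
  set C : Set (PP 2) := f.map^[p] '' closure V with hCdef
  have hCcl : IsClosed C :=
    (isClosed_closure.isCompact.image ((map_cont f).iterate p)).isClosed
  have hstep : ∀ W : {W : Set (PP 2) // IsOpen W ∧ C ⊆ W}, ∃ W' : {W : Set (PP 2) // IsOpen W ∧ C ⊆ W},
      closure W'.1 ⊆ W.1 := by
    intro W
    obtain ⟨V', h1, h2, h3⟩ := normal_exists_closure_subset hCcl W.2.1 W.2.2
    exact ⟨⟨V', h1, h2⟩, h3⟩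
  choose next hnext using hstep
  set S : ℕ → {W : Set (PP 2) // IsOpen W ∧ C ⊆ W} := fun n => next^[n] ⟨V, hVo, hVt⟩ with hS
  have hS0 : (S 0).1 = V := rfl
  have hSs : ∀ n, closure (S (n + 1)).1 ⊆ (S n).1 := by
    intro n
    have : S (n + 1) = next (S n) := Function.iterate_succ_apply' _ _ _
    rw [this]
    exact hnext _
  have hSV : ∀ n, (S n).1 ⊆ V := by
    intro n
    induction n with
    | zero => exact hS0.le
    | succ n ih => exact subset_closure.trans ((hSs n).trans ih)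
  set O : Set (PP 2) := ⋃ j ∈ Finset.range p, f.map^[j] ⁻¹' (S j).1 with hO
  have hOo : IsOpen O := isOpen_biUnion fun j _ => (S j).2.1.preimage ((map_cont f).iterate j)
  have hVO : V ⊆ O := by
    intro x hx
    rw [hO, mem_iUnion₂]
    exact ⟨0, Finset.mem_range.2 hp, hx⟩
  have hOt : IsTrapping f O := by
    refine ⟨hOo, ?_, ?_⟩
    · obtain ⟨x, hx⟩ := hVK
      exact ⟨x, hVO hx.1⟩
    · have hcl : IsClosed (⋃ j ∈ Finset.range p, f.map^[j] ⁻¹' closure (S j).1) :=
        isClosed_biUnion_finset fun j _ => isClosed_closure.preimage ((map_cont f).iterate j)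
      have hsub : closure O ⊆ ⋃ j ∈ Finset.range p, f.map^[j] ⁻¹' closure (S j).1 := by
        refine closure_minimal ?_ hcl
        exact iUnion₂_mono fun j _ => preimage_mono subset_closure
      rintro _ ⟨x, hx, rfl⟩
      obtain ⟨j, hj, hxj⟩ := mem_iUnion₂.1 (hsub hx)
      rw [hO, mem_iUnion₂]
      rcases j with _ | i
      · refine ⟨p - 1, Finset.mem_range.2 (by omega), ?_⟩
        apply (S (p - 1)).2.2
        refine ⟨x, hxj, ?_⟩
        rw [← Function.iterate_succ_apply]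
        congr 1
        omega
      · refine ⟨i, Finset.mem_range.2 (by have := Finset.mem_range.1 hj; omega), ?_⟩
        apply hSs i
        rw [mem_preimage] at hxj
        rwa [← Function.iterate_succ_apply]
  have hKO : K ⊆ O := by
    refine hC.minimal O hOt ?_
    obtain ⟨x, hx⟩ := hVK
    exact ⟨x, hVO hx.1, hx.2⟩
  intro x hx
  obtain ⟨j, hj, hxj⟩ := mem_iUnion₂.1 (hKO hx)
  exact ⟨j, Finset.mem_range.1 hj, hSV j hxj⟩

theorem PMIN_small (hC : Core f Us K) {G : Set (PP 2)} (hG : IsOpen G) (hKG : K ⊆ G) :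
    ∃ m, Us m ⊆ G := by
  by_contra hcon
  push Not at hcon
  have hcl : ∀ n, IsClosed (closure (Us n) ∩ Gᶜ) := fun n => isClosed_closure.inter hG.isClosed_compl
  obtain ⟨x, hx⟩ := IsCompact.nonempty_iInter_of_sequence_nonempty_isCompact_isClosed
    (fun n => closure (Us n) ∩ Gᶜ)
    (fun n => inter_subset_inter_left _ (closure_mono (PMIN_anti1 hC n)))
    (fun n => by
      obtain ⟨x, hx, hxG⟩ := not_subset.1 (hcon n)
      exact ⟨x, subset_closure hx, hxG⟩)
    (hcl 0).isCompact hcl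
  rw [mem_iInter] at hx
  exact (hx 0).2 (hKG (PMIN_cl hC fun n => (hx n).1))

theorem PMIN_N_pre (hC : Core f Us K) {p : ℕ} {V : Set (PP 2)} (hV : PMIN_N f K p V) (a : ℕ) :
    PMIN_N f K p (f.map^[a] ⁻¹' V) := by
  obtain ⟨hVo, hVt, y, hyV, hyK⟩ := hV
  refine ⟨hVo.preimage ((map_cont f).iterate a), ?_, ?_⟩
  · rintro _ ⟨x, hx, rfl⟩
    have h1 : f.map^[a] x ∈ closure V := by
      have := closure_minimal (preimage_mono subset_closure)
        (isClosed_closure.preimage ((map_cont f).iterate a)) hx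
      exact this
    rw [mem_preimage, ← Function.iterate_add_apply, Nat.add_comm, Function.iterate_add_apply]
    exact hVt ⟨_, h1, rfl⟩
  · obtain ⟨x, hx, hxy⟩ := PMIN_itersurj hC a hyK
    refine ⟨x, ?_, hx⟩
    rw [mem_preimage, hxy]
    exact hyV

theorem PMIN_N_Us (hC : Core f Us K) {p : ℕ} (hp : 0 < p) {V : Set (PP 2)} (hV : PMIN_N f K p V) (n : ℕ) :
    PMIN_N f K p (V ∩ Us n) := by
  obtain ⟨hVo, hVt, y, hyV, hyK⟩ := hV
  refine ⟨hVo.inter (hC.trap n).1, ?_, y, ⟨hyV, PMIN_Us hC hyK n⟩, hyK⟩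
  rintro _ ⟨x, hx, rfl⟩
  refine ⟨hVt ⟨x, closure_mono inter_subset_left hx, rfl⟩, ?_⟩
  have h1 : f.map x ∈ Us n := (hC.trap n).2.2 ⟨x, closure_mono inter_subset_right hx, rfl⟩
  obtain ⟨q, rfl⟩ : ∃ q, p = q + 1 := ⟨p - 1, by omega⟩
  rw [Function.iterate_succ_apply]
  exact iterate_mem (hC.trap n) h1 q

end topo

end Pool.Agent.P2
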