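import Pool.Agent.helper37.P2.SpecB
import Pool.Agent.helper53.P2.MSS
import Pool.Agent.helper31.P2.PMINa

set_option autoImplicit false

/-!
Row PMIN of project P2 (MP_063734_an): a minimal quasi-attractor is minimal for all iterates.
-/

open scoped ContDiff Topology
open MeasureTheory Filter Set Metric MvPolynomial Pool.Agent.helper37.QA

namespace Pool.Agent.P2

/-! ### iterates -/

theorem PMIN_It_itE {d : ℕ} (f : Endo 2 d) (p N : ℕ) :
    It (Pool.Agent.helper15.QB.itE f p) N = It f (p * N) := by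
  funext Z
  induction N with
  | zero =>
    change pmap (iter (iter f.F p) 0) Z = pmap (iter f.F (p * 0)) Z
    rw [mul_zero, pmap_iter_zero, pmap_iter_zero]
  | succ N ih =>
    change pmap (iter (iter f.F p) (N + 1)) Z = pmap (iter f.F (p * (N + 1))) Z
    rw [pmap_iter_succ, Nat.mul_succ, Nat.add_comm (p * N) p, pmap_iter_add]
    exact congrArg _ ih

theorem PMIN_It_add {d : ℕ} (f : Endo 2 d) (M j : ℕ) (Z : E3) : It f M (It f j Z) = It f (M + j) Z :=
  (pmap_iter_add f.F M j Z).symm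

theorem PMIN_tau_itE {d : ℕ} (f : Endo 2 d) (p N : ℕ) (Z : ℂ → E3) (z : ℂ) :
    tau (Pool.Agent.helper15.QB.itE f p) N Z z = tau f (p * N) Z z := by
  unfold tau
  rw [PMIN_It_itE, Nat.cast_pow, ← pow_mul]

theorem PMIN_tau_comp {d : ℕ} (f : Endo 2 d) (hd : 0 < d) (M j : ℕ) (Z : ℂ → E3) (z : ℂ) :
    tau f M (fun z => It f j (Z z)) z = (d : ℝ) ^ j * tau f (M + j) Z z := by
  have hd0 : (d : ℝ) ≠ 0 := by exact_mod_cast hd.ne'
  unfold tau
  simp only [PMIN_It_add]
  rw [pow_add]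
  field_simp

theorem PMIN_mass_comp {d : ℕ} (f : Endo 2 d) (hd : 0 < d) (p N j : ℕ) (Z : ℂ → E3) :
    mass (Pool.Agent.helper15.QB.itE f p) N (fun z => It f j (Z z)) = (d : ℝ) ^ j * mass f (p * N + j) Z := by
  unfold mass
  rw [← integral_const_mul]
  congr 1
  funext z
  rw [PMIN_tau_itE, PMIN_tau_comp f hd]
  ring

/-! ### change of variables -/

theorem PMIN_tau_scale {d : ℕ} (f : Endo 2 d) (N : ℕ) (Z : ℂ → E3) (c : ℂ) (r : ℝ) (w : ℂ) :
    tau f N (fun w => Z (c + r • w)) w = r ^ 2 * tau f N Z (c + r • w) := by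
  have h : ∀ i, deriv (fun w => It f N (Z (c + r • w)) i) w =
      (r : ℂ) * deriv (fun z => It f N (Z z) i) (c + r • w) := by
    intro i
    simp only [Complex.real_smul]
    have h1 := deriv_comp_mul_left (r : ℂ) (fun z => (fun z => It f N (Z z) i) (c + z)) w
    have h2 := deriv_comp_const_add (f := fun z => It f N (Z z) i) c ((r : ℂ) * w)
    exact h1.trans (congrArg (fun t => (r : ℂ) • t) h2)
  unfold tau
  rw [h 0, h 1]
  have h2 : It f N (Z (c + r • w)) 1 * ((r : ℂ) * deriv (fun z => It f N (Z z) 0) (c + r • w)) -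
      It f N (Z (c + r • w)) 0 * ((r : ℂ) * deriv (fun z => It f N (Z z) 1) (c + r • w)) =
      (r : ℂ) * (It f N (Z (c + r • w)) 1 * deriv (fun z => It f N (Z z) 0) (c + r • w) -
        It f N (Z (c + r • w)) 0 * deriv (fun z => It f N (Z z) 1) (c + r • w)) := by ring
  rw [h2, Complex.normSq_mul, Complex.normSq_ofReal]
  ring

theorem PMIN_mass_scale {d : ℕ} (f : Endo 2 d) (N : ℕ) (Z : ℂ → E3) (c : ℂ) {r : ℝ} (hr : 0 < r) :
    mass f N (fun w => Z (c + r • w)) = ∫ ζ, eta (r⁻¹ • (ζ - c)) ^ 2 * tau f N Z ζ := by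
  set G : ℂ → ℝ := fun ζ => eta (r⁻¹ • (ζ - c)) ^ 2 * tau f N Z ζ with hG
  have h1 : ∀ w : ℂ, eta w ^ 2 * tau f N (fun w => Z (c + r • w)) w = r ^ 2 * G (c + r • w) := by
    intro w
    rw [PMIN_tau_scale, hG]
    dsimp only
    rw [add_sub_cancel_left, smul_smul, inv_mul_cancel₀ hr.ne', one_smul]
    ring
  unfold mass
  simp_rw [h1]
  rw [integral_const_mul, Measure.integral_comp_smul volume (fun ζ => G (c + ζ)) r,
    integral_add_left_eq_self, Complex.finrank_real_complex, smul_eq_mul, abs_of_pos (by positivity),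
    ← mul_assoc, mul_inv_cancel₀ (by positivity), one_mul]

/-! ### the cut-off -/

theorem PMIN_normSq_contDiff : ContDiff ℝ ∞ (fun z : ℂ => Complex.normSq z) := by
  have h : (fun z : ℂ => Complex.normSq z) = fun z : ℂ => z.re * z.re + z.im * z.im := by
    funext z
    exact Complex.normSq_apply z
  rw [h]
  have h1 : ContDiff ℝ ∞ (fun z : ℂ => z.re) := Complex.reCLM.contDiff
  have h2 : ContDiff ℝ ∞ (fun z : ℂ => z.im) := Complex.imCLM.contDiff
  exact (h1.mul h1).add (h2.mul h2)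

theorem PMIN_eta_contDiff : ContDiff ℝ ∞ eta := by
  unfold eta
  exact Real.smoothTransition.contDiff.comp (contDiff_const.sub (contDiff_const.mul PMIN_normSq_contDiff))

theorem PMIN_eta_nonneg (z : ℂ) : 0 ≤ eta z := Real.smoothTransition.nonneg _

theorem PMIN_eta_le (z : ℂ) : eta z ≤ 1 := Real.smoothTransition.le_one _

theorem PMIN_eta_one {z : ℂ} (h : Complex.normSq z ≤ 1 / 2) : eta z = 1 :=
  Real.smoothTransition.one_of_one_le (by linarith)

theorem PMIN_eta_zero {z : ℂ} (h : 5 / 8 ≤ Complex.normSq z) : eta z = 0 :=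
  Real.smoothTransition.zero_of_nonpos (by linarith)

theorem PMIN_eta_ts (c : ℂ) (r : ℝ) :
    tsupport (fun ζ => eta (r⁻¹ • (ζ - c)) ^ 2) ⊆ {ζ | Complex.normSq (r⁻¹ • (ζ - c)) ≤ 5 / 8} := by
  refine closure_minimal ?_ ?_
  · intro ζ hζ
    by_contra hcon
    apply hζ
    rw [Set.mem_ofPred_eq, not_le] at hcon
    dsimp only
    rw [PMIN_eta_zero hcon.le]
    norm_num
  · exact isClosed_le (Complex.continuous_normSq.comp (by fun_prop)) continuous_const

theorem PMIN_eta_ball {c ζ : ℂ} {r : ℝ} (hr : 0 < r) (h : Complex.normSq (r⁻¹ • (ζ - c)) ≤ 5 / 8) :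
    ζ ∈ ball c r := by
  rw [mem_ball_iff_norm]
  rw [Complex.normSq_eq_norm_sq, norm_smul, norm_inv, Real.norm_of_nonneg hr.le] at h
  by_contra hcon
  rw [not_lt] at hcon
  have h1 : 1 ≤ r⁻¹ * ‖ζ - c‖ := by
    rw [inv_mul_eq_div, one_le_div₀ hr]
    exact hcon
  nlinarith

/-- the functions `η((ζ - c)/r)²` -/
theorem PMIN_chi_contDiff (c : ℂ) (r : ℝ) : ContDiff ℝ ∞ (fun ζ : ℂ => eta (r⁻¹ • (ζ - c)) ^ 2) := by
  have h1 : ContDiff ℝ ∞ (fun ζ : ℂ => r⁻¹ • (ζ - c)) :=
    (contDiff_id.sub contDiff_const).const_smul r⁻¹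
  exact (PMIN_eta_contDiff.comp h1).pow 2

/-! ### masses -/

/-- facts on a disc in `U` -/
theorem PMIN_hol {d : ℕ} (f : Endo 2 d) {U : Set (PP 2)} {Z : ℂ → E3} (hZ : Dsc U Z) (N : ℕ) (i : Fin 3) :
    DifferentiableOn ℂ (fun z => It f N (Z z) i) (ball 0 1) := by
  intro z hz
  have h1 : ∀ j, AnalyticAt ℂ (fun w => Z w j) z := by
    intro j
    have h2 : DifferentiableOn ℂ (fun w => Z w j) (ball 0 1) := fun w hw =>
      (differentiableWithinAt_pi.1 (hZ.1 w hw)) j
    exact h2.analyticAt (isOpen_ball.mem_nhds hz)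
  have h3 := AnalyticAt.aeval_mvPolynomial h1 (iter f.F N i)
  exact (h3.differentiableAt.differentiableWithinAt)

theorem PMIN_cont_un {d : ℕ} (f : Endo 2 d) {U : Set (PP 2)} {Z : ℂ → E3} (hZ : Dsc U Z)
    (hpos : ∀ n : ℕ, ∀ W ∈ cone U, 0 < pq (It f n W)) (N : ℕ) :
    ContinuousOn (fun z => un f N (Z z)) (ball 0 1) := by
  have h : ∀ i, ContinuousOn (fun z => It f N (Z z) i) (ball 0 1) := fun i => (PMIN_hol f hZ N i).continuousOn
  have h2 : ContinuousOn (fun z => pq (It f N (Z z))) (ball 0 1) :=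
    (Complex.continuous_normSq.comp_continuousOn (h 0)).add (Complex.continuous_normSq.comp_continuousOn (h 1))
  unfold un
  refine (continuousOn_const.mul (h2.log fun z hz => ?_)).div_const _
  exact (hpos N _ (hZ.2 z hz)).ne'

theorem PMIN_cont_tau {d : ℕ} (f : Endo 2 d) {U : Set (PP 2)} {Z : ℂ → E3} (hZ : Dsc U Z)
    (hpos : ∀ n : ℕ, ∀ W ∈ cone U, 0 < pq (It f n W)) (N : ℕ) :
    ContinuousOn (fun z => tau f N Z z) (ball 0 1) := by
  have h : ∀ i, ContinuousOn (fun z => It f N (Z z) i) (ball 0 1) := fun i => (PMIN_hol f hZ N i).continuousOn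
  have h' : ∀ i, ContinuousOn (deriv fun z => It f N (Z z) i) (ball 0 1) := fun i =>
    ((PMIN_hol f hZ N i).deriv isOpen_ball).continuousOn
  have h2 : ContinuousOn (fun z => pq (It f N (Z z))) (ball 0 1) :=
    (Complex.continuous_normSq.comp_continuousOn (h 0)).add (Complex.continuous_normSq.comp_continuousOn (h 1))
  unfold tau
  refine ContinuousOn.div_const (ContinuousOn.div ?_ (h2.pow 2) fun z hz => ?_) _
  · refine continuousOn_const.mul (Complex.continuous_normSq.comp_continuousOn ?_)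
    exact ((h 1).mul (h' 0)).sub ((h 0).mul (h' 1))
  · exact pow_ne_zero 2 (hpos N _ (hZ.2 z hz)).ne'

theorem PMIN_tau_nonneg {d : ℕ} (f : Endo 2 d) (Z : ℂ → E3) (N : ℕ) (z : ℂ) : 0 ≤ tau f N Z z := by
  unfold tau
  have h1 := Complex.normSq_nonneg (It f N (Z z) 1 * deriv (fun z => It f N (Z z) 0) z -
    It f N (Z z) 0 * deriv (fun z => It f N (Z z) 1) z)
  positivity

/-- the masses of a disc form a Cauchy sequence -/
theorem PMIN_cauchy (hUN1 : UN1_stmt) (hMSS : MSS_stmt) {d : ℕ} {f : Endo 2 d} {U : Set (PP 2)} (hd : 2 ≤ d)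
    (hU : Good0 f U) {Z : ℂ → E3} (hZ : Dsc U Z) :
    ∃ L : ℝ, 0 ≤ L ∧ ∀ N M : ℕ, N ≤ M → |mass f M Z - mass f N Z| ≤ L / (d : ℝ) ^ N := by
  obtain ⟨C, hC, hu1, _, hu3, _⟩ := hUN1 d f U hd hU
  have hsub : cone U ⊆ cone (closure U) := fun W ⟨h, hW⟩ => ⟨h, subset_closure hW⟩
  have hpos : ∀ n : ℕ, ∀ W ∈ cone U, 0 < pq (It f n W) := fun n W hW => (hu3 n W (hsub hW)).1
  have hd0 : (0 : ℝ) < d := by exact_mod_cast (by omega : 0 < d)
  set χ : ℂ → ℝ := fun z => eta z ^ 2 with hχ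
  have hχe : χ = fun ζ : ℂ => eta ((1 : ℝ)⁻¹ • (ζ - 0)) ^ 2 := by
    funext z
    rw [inv_one, one_smul, sub_zero]
  have hχs : ContDiff ℝ ∞ χ := PMIN_eta_contDiff.pow 2
  have hts : tsupport χ ⊆ ball 0 1 := by
    rw [hχe]
    exact (PMIN_eta_ts 0 1).trans fun z hz => PMIN_eta_ball one_pos hz
  have hcs : HasCompactSupport χ :=
    IsCompact.of_isClosed_subset (isCompact_closedBall (0 : ℂ) 1) (isClosed_tsupport χ)
      (hts.trans ball_subset_closedBall)
  -- the Laplacian of the cut-off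
  have hlc : Continuous (lap χ) := by
    unfold lap
    have h1 : Continuous (iteratedFDeriv ℝ 2 χ) := hχs.continuous_iteratedFDeriv ENat.LEInfty.out
    have h2 : ∀ m : Fin 2 → ℂ, Continuous fun z => iteratedFDeriv ℝ 2 χ z m := fun m =>
      (ContinuousMultilinearMap.apply ℝ (fun _ : Fin 2 => ℂ) ℝ m).continuous.comp h1
    exact continuous_const.mul ((h2 _).add (h2 _))
  have hlz : ∀ z, z ∉ tsupport χ → lap χ z = 0 := by
    intro z hz
    have h1 : iteratedFDeriv ℝ 2 χ z = 0 := by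
      by_contra hcon
      exact hz (support_iteratedFDeriv_subset 2 hcon)
    unfold lap
    rw [h1]
    simp
  have hlt : tsupport (lap χ) ⊆ tsupport χ := by
    refine closure_minimal ?_ (isClosed_tsupport χ)
    intro z hz
    by_contra hcon
    exact hz (hlz z hcon)
  have hlcs : HasCompactSupport (lap χ) :=
    IsCompact.of_isClosed_subset hcs (isClosed_tsupport _) hlt
  have hI : ∀ n, Integrable (fun z => lap χ z * un f n (Z z)) := fun n =>
    MSS_integrable isOpen_ball hlc (hlt.trans hts) hlcs (PMIN_cont_un f hZ hpos n)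
  have hIabs : Integrable (fun z => |lap χ z|) :=
    (Continuous.integrable_of_hasCompactSupport hlc hlcs).abs
  refine ⟨C * ∫ z, |lap χ z|, mul_nonneg hC.le (integral_nonneg fun z => abs_nonneg _), ?_⟩
  intro N M hNM
  have hm : ∀ n, mass f n Z = ∫ z, lap χ z * un f n (Z z) := fun n => (hMSS d f U hd hU Z hZ n).2 χ hχs hts
  rw [hm, hm, ← integral_sub (hI M) (hI N)]
  have hb : ∀ z, ‖lap χ z * un f M (Z z) - lap χ z * un f N (Z z)‖ ≤ |lap χ z| * (C / (d : ℝ) ^ N) := by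
    intro z
    rw [← mul_sub, norm_mul, Real.norm_eq_abs, Real.norm_eq_abs]
    by_cases hz : z ∈ ball (0 : ℂ) 1
    · exact mul_le_mul_of_nonneg_left (hu1 N M hNM _ (hsub (hZ.2 z hz))) (abs_nonneg _)
    · rw [hlz z fun h => hz (hts h), abs_zero, zero_mul, zero_mul]
  have h1 := norm_integral_le_of_norm_le (hIabs.mul_const (C / (d : ℝ) ^ N)) (Eventually.of_forall hb)
  rw [Real.norm_eq_abs, integral_mul_const] at h1
  refine h1.trans (le_of_eq ?_)
  ring

/-- from infinitely many levels to all large levels -/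
theorem PMIN_freq (hUN1 : UN1_stmt) (hMSS : MSS_stmt) {d : ℕ} {f : Endo 2 d} {U : Set (PP 2)} (hd : 2 ≤ d)
    (hU : Good0 f U) {Z : ℂ → E3} (hZ : Dsc U Z) {c : ℝ} (hc : 0 < c) (hf : ∃ᶠ N in atTop, c ≤ mass f N Z) :
    ∀ᶠ N in atTop, c / 2 ≤ mass f N Z := by
  obtain ⟨L, hL, hLb⟩ := PMIN_cauchy hUN1 hMSS hd hU hZ
  have hd1 : (1 : ℝ) < d := by exact_mod_cast (by omega : 1 < d)
  have ht : Tendsto (fun N : ℕ => L / (d : ℝ) ^ N) atTop (𝓝 0) :=
    (tendsto_pow_atTop_atTop_of_one_lt hd1).const_div_atTop L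
  have he : ∀ᶠ N : ℕ in atTop, L / (d : ℝ) ^ N < c / 2 := (tendsto_order.1 ht).2 _ (by positivity)
  filter_upwards [he] with N hN
  obtain ⟨M, hM, hMc⟩ := frequently_atTop.1 hf N
  have h1 := abs_le.1 (hLb N M hM)
  linarith [h1.2]

/-- a piece of a charged disc is charged -/
theorem PMIN_charged (hUN1 : UN1_stmt) (hMSS : MSS_stmt) {d : ℕ} {f : Endo 2 d} {U : Set (PP 2)} (hd : 2 ≤ d)
    (hU : Good0 f U) (hch : Charged f U) {p : ℕ} (hp : 0 < p) {B : Set (PP 2)} (hB : IsOpen B)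
    (hcov : ∀ x ∈ U, ∃ j < p, f.map^[j] x ∈ B) : Charged (Pool.Agent.helper15.QB.itE f p) B := by
  obtain ⟨Z, hZ, c, hc, hcN⟩ := hch
  obtain ⟨C, hC, _, _, hu3, _⟩ := hUN1 d f U hd hU
  have hsub : cone U ⊆ cone (closure U) := fun W ⟨h, hW⟩ => ⟨h, subset_closure hW⟩
  have hpos : ∀ n : ℕ, ∀ W ∈ cone U, 0 < pq (It f n W) := fun n W hW => (hu3 n W (hsub hW)).1
  have hd0 : (0 : ℝ) < d := by exact_mod_cast (by omega : 0 < d)
  -- small discs
  have hloc : ∀ z : ℂ, ∃ (j : ℕ) (r : ℝ), 0 < r ∧ (z ∈ ball (0 : ℂ) 1 → ball z r ⊆ ball 0 1 ∧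
      ∀ w ∈ ball z r, It f j (Z w) ∈ cone B) := by
    intro z
    by_cases hz : z ∈ ball (0 : ℂ) 1
    · obtain ⟨h0, hzU⟩ := hZ.2 z hz
      obtain ⟨j, _, hj⟩ := hcov _ hzU
      have h1 : It f j (Z z) ∈ cone B := by
        rw [map_iter] at hj
        exact ⟨_, hj⟩
      have h2 : ContinuousAt (fun w => It f j (Z w)) z := by
        have h3 : ContinuousAt Z z := (hZ.1.continuousOn).continuousAt (isOpen_ball.mem_nhds hz)
        exact (pmap_cont (iter f.F j)).continuousAt.comp h3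
      have h4 : ∀ᶠ w in 𝓝 z, w ∈ ball (0 : ℂ) 1 := isOpen_ball.mem_nhds hz
      have h5 : ∀ᶠ w in 𝓝 z, It f j (Z w) ∈ cone B := h2.preimage_mem_nhds ((cone_open hB).mem_nhds h1)
      have h3 : ∀ᶠ w in 𝓝 z, w ∈ ball (0 : ℂ) 1 ∧ It f j (Z w) ∈ cone B := h4.and h5
      obtain ⟨r, hr, hball⟩ := Metric.eventually_nhds_iff_ball.1 h3
      exact ⟨j, r, hr, fun _ => ⟨fun w hw => (hball w hw).1, fun w hw => (hball w hw).2⟩⟩
    · exact ⟨0, 1, one_pos, fun h => absurd h hz⟩
  choose jj rr hrr hball using hloc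
  -- the sub-discs
  set Y : ℂ → ℂ → E3 := fun c w => Z (c + rr c • w) with hY
  have hin : ∀ c w : ℂ, w ∈ ball (0 : ℂ) 1 → c + rr c • w ∈ ball c (rr c) := by
    intro c w hw
    rw [mem_ball_iff_norm, add_sub_cancel_left, norm_smul, Real.norm_of_nonneg (hrr c).le]
    rw [mem_ball_zero_iff] at hw
    have := hrr c
    nlinarith
  have hYd : ∀ c ∈ ball (0 : ℂ) 1, Dsc U (Y c) := by
    intro c hc
    refine ⟨?_, fun w hw => hZ.2 _ ((hball c hc).1 (hin c w hw))⟩
    refine hZ.1.comp (t := ball 0 1) ?_ fun w hw => (hball c hc).1 (hin c w hw)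
    have h1 : Differentiable ℂ fun w : ℂ => c + rr c • w := by
      have h2 : (fun w : ℂ => c + rr c • w) = fun w : ℂ => c + (rr c : ℂ) * w := by
        funext w
        rw [Complex.real_smul]
      rw [h2]
      fun_prop
    exact h1.differentiableOn
  have hYB : ∀ c ∈ ball (0 : ℂ) 1, Dsc B (fun w => It f (jj c) (Y c w)) := by
    intro c hc
    refine ⟨?_, fun w hw => (hball c hc).2 _ (hin c w hw)⟩
    exact differentiableOn_pi.2 fun i => PMIN_hol f (hYd c hc) (jj c) i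
  -- the cover
  have hcpt : IsCompact {z : ℂ | Complex.normSq z ≤ 5 / 8} := by
    refine IsCompact.of_isClosed_subset (isCompact_closedBall (0 : ℂ) 1)
      (isClosed_le Complex.continuous_normSq continuous_const) ?_
    intro z hz
    rw [Set.mem_ofPred_eq, Complex.normSq_eq_norm_sq] at hz
    rw [mem_closedBall_zero_iff]
    nlinarith [norm_nonneg z]
  obtain ⟨t, htS, htc⟩ := hcpt.elim_nhds_subcover (fun z => ball z (rr z / 2))
    fun z _ => ball_mem_nhds z (half_pos (hrr z))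
  have htb : ∀ z ∈ t, z ∈ ball (0 : ℂ) 1 := by
    intro z hz
    have h1 := htS z hz
    rw [Set.mem_ofPred_eq, Complex.normSq_eq_norm_sq] at h1
    rw [mem_ball_zero_iff]
    nlinarith [norm_nonneg z]
  -- the sum of the masses
  have hint : ∀ z ∈ t, ∀ N, Integrable fun ζ => eta ((rr z)⁻¹ • (ζ - z)) ^ 2 * tau f N Z ζ := by
    intro z hz N
    have h1 : tsupport (fun ζ => eta ((rr z)⁻¹ • (ζ - z)) ^ 2) ⊆ ball 0 1 :=
      ((PMIN_eta_ts z (rr z)).trans fun ζ hζ => PMIN_eta_ball (hrr z) hζ).trans (hball z (htb z hz)).1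
    have h2 : HasCompactSupport (fun ζ => eta ((rr z)⁻¹ • (ζ - z)) ^ 2) :=
      IsCompact.of_isClosed_subset (isCompact_closedBall (0 : ℂ) 1) (isClosed_tsupport _)
        (h1.trans ball_subset_closedBall)
    exact MSS_integrable isOpen_ball (PMIN_chi_contDiff z (rr z)).continuous h1 h2 (PMIN_cont_tau f hZ hpos N)
  have hsum : ∀ N, mass f N Z ≤ ∑ z ∈ t, mass f N (Y z) := by
    intro N
    have h1 : ∑ z ∈ t, mass f N (Y z) = ∫ ζ, ∑ z ∈ t, eta ((rr z)⁻¹ • (ζ - z)) ^ 2 * tau f N Z ζ := by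
      rw [integral_finsetSum t fun z hz => hint z hz N]
      exact Finset.sum_congr rfl fun z _ => PMIN_mass_scale f N Z z (hrr z)
    rw [h1]
    unfold mass
    refine integral_mono_of_nonneg (Eventually.of_forall fun ζ => ?_) (integrable_finsetSum t fun z hz => hint z hz N)
      (Eventually.of_forall fun ζ => ?_)
    · exact mul_nonneg (sq_nonneg _) (PMIN_tau_nonneg f Z N ζ)
    · dsimp only
      have hnn : ∀ z ∈ t, 0 ≤ eta ((rr z)⁻¹ • (ζ - z)) ^ 2 * tau f N Z ζ := fun z _ =>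
        mul_nonneg (sq_nonneg _) (PMIN_tau_nonneg f Z N ζ)
      by_cases hζ : Complex.normSq ζ ≤ 5 / 8
      · obtain ⟨z, hz, hzζ⟩ := mem_iUnion₂.1 (htc hζ)
        have h2 : eta ((rr z)⁻¹ • (ζ - z)) = 1 := by
          apply PMIN_eta_one
          rw [mem_ball_iff_norm] at hzζ
          rw [Complex.normSq_eq_norm_sq, norm_smul, norm_inv, Real.norm_of_nonneg (hrr z).le, inv_mul_eq_div]
          have h3 : ‖ζ - z‖ / rr z ≤ 1 / 2 := by
            rw [div_le_iff₀ (hrr z)]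
            linarith
          have h4 : 0 ≤ ‖ζ - z‖ / rr z := div_nonneg (norm_nonneg _) (hrr z).le
          nlinarith
        have h5 : eta ζ ^ 2 * tau f N Z ζ ≤ eta ((rr z)⁻¹ • (ζ - z)) ^ 2 * tau f N Z ζ := by
          refine mul_le_mul_of_nonneg_right ?_ (PMIN_tau_nonneg f Z N ζ)
          rw [h2]
          have h6 := PMIN_eta_le ζ
          have h7 := PMIN_eta_nonneg ζ
          nlinarith
        exact h5.trans (Finset.single_le_sum hnn hz)
      · rw [PMIN_eta_zero (not_le.1 hζ).le]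
        simpa using Finset.sum_nonneg hnn
  -- one of the sub-discs is charged
  set c' : ℝ := c / (t.card + 1) with hc'
  have hc'pos : 0 < c' := by positivity
  obtain ⟨z, hz, hfr⟩ : ∃ z ∈ t, ∃ᶠ N in atTop, c' ≤ mass f N (Y z) := by
    by_contra hcon
    push Not at hcon
    have h2 := (Filter.eventually_all_finset t).2 hcon
    obtain ⟨N, hN1, hN2⟩ := (hcN.and h2).exists
    have h3 : ∑ z ∈ t, mass f N (Y z) ≤ t.card * c' := by
      rw [← nsmul_eq_mul]
      exact Finset.sum_le_card_nsmul t _ c' fun z hz => (hN2 z hz).le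
    have h4 := hsum N
    have h5 : (t.card : ℝ) * c' < c := by
      rw [hc', mul_div_assoc', div_lt_iff₀ (by positivity)]
      nlinarith
    linarith
  have hev := PMIN_freq hUN1 hMSS hd hU (hYd z (htb z hz)) hc'pos hfr
  refine ⟨fun w => It f (jj z) (Y z w), hYB z (htb z hz), (d : ℝ) ^ jj z * (c' / 2), by positivity, ?_⟩
  have htd : Tendsto (fun N : ℕ => p * N + jj z) atTop atTop := by
    refine tendsto_atTop_mono (fun N => ?_) tendsto_id
    have : N ≤ p * N := Nat.le_mul_of_pos_left N hp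
    simp only [id]
    omega
  filter_upwards [htd.eventually hev] with N hN
  rw [PMIN_mass_comp f (by omega) p N (jj z) (Y z)]
  exact mul_le_mul_of_nonneg_left hN (by positivity)

/-! ### intersections -/

theorem PMIN_inter (hINT : INT_stmt) (hUN1 : UN1_stmt) (hMSS : MSS_stmt) {d : ℕ} {f : Endo 2 d}
    {Us : ℕ → Set (PP 2)} {K : Set (PP 2)} (hd : 2 ≤ d) (hC : Core f Us K) {p : ℕ} (hp : 0 < p)
    {V V' : Set (PP 2)} (hV : PMIN_N f K p V) (hV' : PMIN_N f K p V') : PMIN_N f K p (V ∩ V') := by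
  have hgood : ∀ {V : Set (PP 2)}, PMIN_N f K p V → ∀ n, Good0 (Pool.Agent.helper15.QB.itE f p) (V ∩ Us n) ∧
      Charged (Pool.Agent.helper15.QB.itE f p) (V ∩ Us n) := by
    intro V hV n
    have hVn := PMIN_N_Us hC hp hV n
    obtain ⟨h1, h2, h3⟩ := hVn
    refine ⟨⟨⟨h1, ?_, ?_⟩, ?_⟩, ?_⟩
    · obtain ⟨x, hx⟩ := h3
      exact ⟨x, hx.1⟩
    · rw [Pool.Agent.helper15.QB.itE_map]
      exact h2
    · intro Z hZ h0 h1' hcl
      refine hC.good.2 Z hZ h0 h1' ?_
      exact closure_mono (inter_subset_right.trans (PMIN_anti hC (Nat.zero_le n))) hcl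
    · have hcov := PMIN_cover hC hp (PMIN_N_Us hC hp hV n)
      have hop : IsOpen (⋃ j ∈ Finset.range p, f.map^[j] ⁻¹' (V ∩ Us n)) :=
        isOpen_biUnion fun j _ => h1.preimage ((map_cont f).iterate j)
      obtain ⟨m, hm⟩ := PMIN_small hC hop (by
        intro x hx
        obtain ⟨j, hj, hxj⟩ := hcov x hx
        exact mem_iUnion₂.2 ⟨j, Finset.mem_range.2 hj, hxj⟩)
      have hgm : Good0 f (Us m) := by
        refine ⟨hC.trap m, ?_⟩
        intro Z hZ h0 h1' hcl
        exact hC.good.2 Z hZ h0 h1' (closure_mono (PMIN_anti hC (Nat.zero_le m)) hcl)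
      refine PMIN_charged hUN1 hMSS hd hgm (hC.charged m) hp h1 ?_
      intro x hx
      obtain ⟨j, hj, hxj⟩ := mem_iUnion₂.1 (hm hx)
      exact ⟨j, Finset.mem_range.1 hj, hxj⟩
  have hdp : 2 ≤ d ^ p := by
    calc 2 ≤ d := hd
      _ = d ^ 1 := (pow_one d).symm
      _ ≤ d ^ p := Nat.pow_le_pow_right (by omega) hp
  have hne : ∀ n, (V ∩ V' ∩ Us n).Nonempty := by
    intro n
    obtain ⟨x, hx, hx'⟩ := hINT (d ^ p) (Pool.Agent.helper15.QB.itE f p) (V ∩ Us n) (V' ∩ Us n) hdp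
      (hgood hV n).1 (hgood hV' n).1 (hgood hV n).2 (hgood hV' n).2
    exact ⟨x, ⟨hx.1, hx'.1⟩, hx.2⟩
  obtain ⟨x, hx⟩ := IsCompact.nonempty_iInter_of_sequence_nonempty_isCompact_isClosed
    (fun n => closure (V ∩ V' ∩ Us n))
    (fun n => closure_mono (inter_subset_inter_right _ (PMIN_anti1 hC n)))
    (fun n => (hne n).mono subset_closure) isClosed_closure.isCompact (fun n => isClosed_closure)
  rw [mem_iInter] at hx
  have hxK : x ∈ K := PMIN_cl hC fun n => closure_mono inter_subset_right (hx n)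
  have hxV : x ∈ closure V := closure_mono (inter_subset_left.trans inter_subset_left) (hx 0)
  have hxV' : x ∈ closure V' := closure_mono (inter_subset_left.trans inter_subset_right) (hx 0)
  refine ⟨hV.1.inter hV'.1, ?_, f.map^[p] x, ⟨hV.2.1 ⟨x, hxV, rfl⟩, hV'.2.1 ⟨x, hxV', rfl⟩⟩, PMIN_iterK hC hxK p⟩
  rintro _ ⟨y, hy, rfl⟩
  exact ⟨hV.2.1 ⟨y, closure_mono inter_subset_left hy, rfl⟩, hV'.2.1 ⟨y, closure_mono inter_subset_right hy, rfl⟩⟩

theorem PMIN (hINT : INT_stmt) (hUN1 : UN1_stmt) (hMSS : MSS_stmt) : PMIN_stmt := by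
  intro d f Us K hd hC p hp V hVt hVK
  have hV : PMIN_N f K p V := by
    refine ⟨hVt.1, ?_, hVK⟩
    have := hVt.2.2
    rwa [Pool.Agent.helper15.QB.itE_map] at this
  have hW : ∀ a : ℕ, PMIN_N f K p {x | ∀ i < a, f.map^[i] x ∈ V} := by
    intro a
    induction a with
    | zero =>
      have h1 : {x : PP 2 | ∀ i < 0, f.map^[i] x ∈ V} = univ := by
        ext x
        simp
      rw [h1]
      obtain ⟨x, hx⟩ := hC.ne
      exact ⟨isOpen_univ, subset_univ _, x, mem_univ x, hx⟩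
    | succ a ih =>
      have h1 : {x : PP 2 | ∀ i < a + 1, f.map^[i] x ∈ V} =
          {x : PP 2 | ∀ i < a, f.map^[i] x ∈ V} ∩ f.map^[a] ⁻¹' V := by
        ext x
        constructor
        · intro h
          exact ⟨fun i hi => h i (by omega), h a (by omega)⟩
        · rintro ⟨h1, h2⟩ i hi
          rcases Nat.lt_succ_iff_lt_or_eq.1 hi with h3 | rfl
          · exact h1 i h3
          · exact h2
      rw [h1]
      exact PMIN_inter hINT hUN1 hMSS hd hC hp ih (PMIN_N_pre hC hV a)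
  have hcov := PMIN_cover hC hp (hW p)
  have hkey : ∀ x ∈ K, f.map^[p] x ∈ V := by
    intro x hx
    obtain ⟨j, hj, hxj⟩ := hcov x hx
    rcases Nat.eq_zero_or_pos j with rfl | hj0
    · exact hV.2.1 ⟨x, subset_closure (hxj 0 hp), rfl⟩
    · have h1 := hxj (p - j) (by omega)
      rwa [← Function.iterate_add_apply, Nat.sub_add_cancel hj.le] at h1
  intro y hy
  obtain ⟨x, hx, hxy⟩ := PMIN_itersurj hC p hy
  rw [← hxy]
  exact hkey x hx

end Pool.Agent.P2
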