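import Pool.Agent.helper83.P2.SpecV
import Pool.Agent.helper90.P2.COREc
import Pool.Agent.helper1.P2.KER

set_option autoImplicit false

open scoped ContDiff Topology
open MeasureTheory Filter Set Metric MvPolynomial Pool.Agent.helper37.QA Pool.Agent.P2

namespace Pool.Agent.P2V

theorem VPH_supp {r : ℝ} (hr : 0 < r) : HasCompactSupport (phr r) := by
  apply HasCompactSupport.intro (isCompact_closedBall (0 : ℂ) r)
  intro s hs
  apply CORE_phr_zero hr
  rw [mem_closedBall_zero_iff, not_le] at hs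
  exact hs.le

theorem VPH_int {r r' : ℝ} {h : ℂ → ℝ} (hr : 0 < r) (hrr : r < r') (hh : ContinuousOn h (ball 0 r')) :
    Integrable (fun v => phr r v * h v) := by
  have h1 : ContinuousOn (fun v => phr r v * h v) (closedBall (0 : ℂ) r) :=
    (CORE_phr_cont r).continuousOn.mul (hh.mono (closedBall_subset_ball hrr))
  have h2 : IntegrableOn (fun v => phr r v * h v) (closedBall (0 : ℂ) r) :=
    h1.integrableOn_compact (isCompact_closedBall _ _)
  apply h2.integrable_of_forall_notMem_eq_zero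
  intro v hv
  rw [mem_closedBall_zero_iff, not_le] at hv
  simp [CORE_phr_zero hr hv.le]

theorem VPH_moll {r : ℝ} {h : ℂ → ℝ} (hr : 0 < r) (hh : ContinuousOn h (ball 0 r)) {ε : ℝ} (hε : 0 < ε) :
    ∃ δ0 : ℝ, 0 < δ0 ∧ ∀ δ : ℝ, 0 < δ → δ < δ0 → Integrable (fun v => phr δ v * h v) ∧ |(∫ v, phr δ v * h v) - h 0| ≤ ε := by
  have hc : ContinuousAt h 0 := hh.continuousAt (ball_mem_nhds _ hr)
  obtain ⟨ρ, hρ, hJρ⟩ := Metric.continuousAt_iff.1 hc ε hε
  refine ⟨min ρ r, lt_min hρ hr, fun δ hδ hlt => ?_⟩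
  have hδρ : δ < ρ := lt_of_lt_of_le hlt (min_le_left _ _)
  have hδr : δ < r := lt_of_lt_of_le hlt (min_le_right _ _)
  have hi : Integrable (fun v => phr δ v * h v) := VPH_int hδ hδr hh
  refine ⟨hi, ?_⟩
  have hphi : Integrable (phr δ) := (CORE_phr_cont δ).integrable_of_hasCompactSupport (VPH_supp hδ)
  have h1 : ∀ s, |phr δ s * h s - phr δ s * h 0| ≤ phr δ s * ε := by
    intro s
    rw [← mul_sub, abs_mul, abs_of_nonneg (CORE_phr_nonneg _ _)]
    by_cases hs : ‖s‖ < δ
    · have : dist (h s) (h 0) < ε := by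
        apply hJρ
        rw [dist_zero_right]
        linarith
      rw [Real.dist_eq] at this
      exact mul_le_mul_of_nonneg_left this.le (CORE_phr_nonneg _ _)
    · rw [CORE_phr_zero hδ (not_lt.1 hs)]
      simp
  have h2 : (∫ s, phr δ s * h s) - h 0 = ∫ s, (phr δ s * h s - phr δ s * h 0) := by
    rw [integral_sub hi (hphi.mul_const _), integral_mul_const, CORE_phr_one hδ, one_mul]
  rw [h2]
  calc |∫ s, (phr δ s * h s - phr δ s * h 0)| ≤ ∫ s, |phr δ s * h s - phr δ s * h 0| := abs_integral_le_integral_abs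
    _ ≤ ∫ s, phr δ s * ε := by
      apply integral_mono_of_nonneg
      · filter_upwards with s
        exact abs_nonneg _
      · exact hphi.mul_const _
      · filter_upwards with s
        exact h1 s
    _ = ε := by rw [integral_mul_const, CORE_phr_one hδ, one_mul]

theorem VPH_low {s : ℝ} {v : ℂ} (hs : 0 < s) (hv : ‖v‖ < s) : 1 / (2 * Real.pi * s ^ 2) ≤ phr (2 * s) v := by
  have hcp := CORE_bmp_pos
  have hcle : (∫ t, bmp t) ≤ Real.pi / 2 := by
    rw [KER_c]
    have := KER_k0_le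
    nlinarith [Real.pi_pos]
  have h1 : bmp (((2 * s : ℝ) : ℂ)⁻¹ * v) = 1 := by
    apply Real.smoothTransition.one_of_one_le
    rw [Complex.normSq_eq_norm_sq, norm_mul, norm_inv, Complex.norm_real, Real.norm_eq_abs, abs_of_pos (by positivity)]
    have h2 : (2 * s)⁻¹ * ‖v‖ ≤ 1 / 2 := by
      rw [inv_mul_eq_div, div_le_iff₀ (by positivity)]
      linarith
    have h3 : 0 ≤ (2 * s)⁻¹ * ‖v‖ := by positivity
    nlinarith
  unfold phr
  rw [h1, mul_one]
  have h4 : (Real.pi / 2)⁻¹ ≤ (∫ t, bmp t)⁻¹ := inv_anti₀ hcp hcle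
  have h5 : 1 / (2 * Real.pi * s ^ 2) = ((2 * s) ^ 2)⁻¹ * (Real.pi / 2)⁻¹ := by
    have := Real.pi_pos.ne'
    field_simp
    try ring
  rw [h5]
  exact mul_le_mul_of_nonneg_left h4 (by positivity)

theorem VPH : VPH_stmt := by
  refine ⟨fun r hr => ⟨CORE_phr_cont r, CORE_phr_nonneg r, fun v hv => CORE_phr_zero hr hv, CORE_phr_one hr, ?_⟩,
    fun s v hs hv => VPH_low hs hv, fun r h hr hh ε hε => VPH_moll hr hh hε, fun r r' h hr hrr hh => VPH_int hr hrr hh⟩
  obtain ⟨C, hC⟩ := (CORE_phr_cont r).bounded_above_of_compact_support (VPH_supp hr)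
  exact ⟨C, fun v => (le_abs_self _).trans (hC v)⟩

end Pool.Agent.P2V
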